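import Pool.Agent.J6H79.RS.Alg
import Pool.Agent.ER.GapSys
import Pool.Agent.ER.Build

/-!
# Polynomial expressions over commutative rings, their differentials and degrees
-/

set_option autoImplicit false

namespace Pool.Agent.J6H79.RS

open Pool.Agent.NPC Pool.Agent.NPC.ER

section ring

variable {R : Type*} [CommRing R]

/-- The value of a polynomial expression at a point with coordinates in a commutative ring. -/
def tev (x : ℕ → R) : Tm → R
  | .var i => x i
  | .zero => 0
  | .one => 1
  | .add s t => tev x s + tev x t
  | .neg t => - tev x t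
  | .mul s t => tev x s * tev x t

/-- The value of the differential of a polynomial expression at the point `x`, in the
direction `v`. -/
def dif (x v : ℕ → R) : Tm → R
  | .var i => v i
  | .zero => 0
  | .one => 0
  | .add s t => dif x v s + dif x v t
  | .neg t => - dif x v t
  | .mul s t => dif x v s * tev x t + tev x s * dif x v t

/-- The variables of the expression are among the first `N` ones. -/
def VLt (N : ℕ) : Tm → Prop
  | .var i => i < N
  | .zero => True
  | .one => True
  | .add s t => VLt N s ∧ VLt N t
  | .neg t => VLt N t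
  | .mul s t => VLt N s ∧ VLt N t

/-- A bound for the degree of an expression. -/
def tdeg : Tm → ℕ
  | .var _ => 1
  | .zero => 0
  | .one => 0
  | .add s t => max (tdeg s) (tdeg t)
  | .neg t => tdeg t
  | .mul s t => tdeg s + tdeg t

/-- Formal partial derivatives. -/
def dT (j : ℕ) : Tm → Tm
  | .var i => if i = j then .one else .zero
  | .zero => .zero
  | .one => .zero
  | .add s t => .add (dT j s) (dT j t)
  | .neg t => .neg (dT j t)
  | .mul s t => .add (.mul (dT j s) t) (.mul s (dT j t))

theorem tev_real (x : ℕ → ℝ) (t : Tm) : tev x t = t.eval x := by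
  induction t <;> simp [tev, Tm.eval, *]

theorem map_tev {R' : Type*} [CommRing R'] (f : R →+* R') (x : ℕ → R) (t : Tm) :
    f (tev x t) = tev (fun i => f (x i)) t := by
  induction t <;> simp [tev, *]

theorem VLt.mono {N M : ℕ} (h : N ≤ M) {t : Tm} (ht : VLt N t) : VLt M t := by
  induction t with
  | var i => exact lt_of_lt_of_le ht h
  | zero => trivial
  | one => trivial
  | add s t ihs iht => exact ⟨ihs ht.1, iht ht.2⟩
  | neg t ih => exact ih ht
  | mul s t ihs iht => exact ⟨ihs ht.1, iht ht.2⟩

theorem VLt.dT {N : ℕ} (j : ℕ) {t : Tm} (ht : VLt N t) : VLt N (dT j t) := by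
  induction t with
  | var i => unfold RS.dT; split_ifs <;> trivial
  | zero => trivial
  | one => trivial
  | add s t ihs iht => exact ⟨ihs ht.1, iht ht.2⟩
  | neg t ih => exact ih ht
  | mul s t ihs iht => exact ⟨⟨ihs ht.1, ht.2⟩, ht.1, iht ht.2⟩

theorem tev_congr {N : ℕ} {x y : ℕ → R} (h : ∀ i < N, x i = y i) {t : Tm} (ht : VLt N t) :
    tev x t = tev y t := by
  induction t with
  | var i => exact h i ht
  | zero => rfl
  | one => rfl
  | add s t ihs iht => simp only [tev, ihs ht.1, iht ht.2]
  | neg t ih => simp only [tev, ih ht]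
  | mul s t ihs iht => simp only [tev, ihs ht.1, iht ht.2]

/-- The differential in terms of the partial derivatives. -/
theorem dif_eq {N : ℕ} (x v : ℕ → R) {t : Tm} (ht : VLt N t) :
    dif x v t = ∑ j ∈ Finset.range N, tev x (dT j t) * v j := by
  induction t with
  | var i =>
    have h : ∀ j, tev x (dT j (.var i)) = if i = j then 1 else 0 := by
      intro j; unfold dT; split_ifs <;> rfl
    simp only [dif, h]
    simp only [ite_mul, one_mul, zero_mul, Finset.sum_ite_eq, Finset.mem_range]
    rw [if_pos (show i < N from ht)]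
  | zero => simp [dif, dT, tev]
  | one => simp [dif, dT, tev]
  | add s t ihs iht =>
    simp only [dif, dT, tev, ihs ht.1, iht ht.2, add_mul, Finset.sum_add_distrib]
  | neg t ih => simp only [dif, dT, tev, ih ht, neg_mul, Finset.sum_neg_distrib]
  | mul s t ihs iht =>
    simp only [dif, dT, tev, ihs ht.1, iht ht.2, Finset.sum_mul, Finset.mul_sum,
      ← Finset.sum_add_distrib]
    exact Finset.sum_congr rfl fun j _ => by ring

/-- Values at points with integral coordinates are integral. -/
theorem tev_integral {N : ℕ} {x : ℕ → R} (h : ∀ i < N, IsIntegral ℤ (x i)) {t : Tm}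
    (ht : VLt N t) : IsIntegral ℤ (tev x t) := by
  induction t with
  | var i => exact h i ht
  | zero => exact isIntegral_zero
  | one => exact isIntegral_one
  | add s t ihs iht => exact (ihs ht.1).add (iht ht.2)
  | neg t ih => exact (ih ht).neg
  | mul s t ihs iht => exact (ihs ht.1).mul (iht ht.2)

/-- Values and degrees. -/
theorem tev_mem_Dg {m : ℕ} {X : Fin m → R} {x : ℕ → R} (h : ∀ i : Fin m, x i = X i) {t : Tm}
    (ht : VLt m t) : tev x t ∈ Dg X (tdeg t) := by
  induction t with
  | var i =>
    have := h ⟨i, ht⟩
    simp only [tev, tdeg] at this ⊢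
    rw [this]
    exact coord_mem_Dg _
  | zero => exact Submodule.zero_mem _
  | one => exact one_mem_Dg _
  | add s t ihs iht =>
    exact Submodule.add_mem _ (Dg_mono (le_max_left _ _) (ihs ht.1))
      (Dg_mono (le_max_right _ _) (iht ht.2))
  | neg t ih => exact Submodule.neg_mem _ (ih ht)
  | mul s t ihs iht => exact mul_mem_Dg (ihs ht.1) (iht ht.2)

end ring

/-- Partial derivatives of real polynomial expressions. -/
theorem hasDerivAt_tm (t : Tm) (x : ℕ → ℝ) (i : ℕ) (s : ℝ) :
    HasDerivAt (fun s => t.eval (Function.update x i s)) ((dT i t).eval (Function.update x i s))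
      s := by
  induction t with
  | var j =>
    by_cases hji : j = i
    · subst hji
      simp only [Tm.eval, Function.update_self, dT, if_true]
      exact hasDerivAt_id s
    · simp only [Tm.eval, Function.update_of_ne hji, dT, if_neg hji]
      exact hasDerivAt_const _ _
  | zero => simpa [Tm.eval, dT] using hasDerivAt_const s (0 : ℝ)
  | one => simpa [Tm.eval, dT] using hasDerivAt_const s (1 : ℝ)
  | add a b iha ihb => exact iha.add ihb
  | neg a ih => exact ih.neg
  | mul a b iha ihb => exact iha.mul ihb

theorem continuous_tm {α : Type*} [TopologicalSpace α] (t : Tm) {x : α → ℕ → ℝ}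
    (h : ∀ i, Continuous fun a => x a i) : Continuous fun a => t.eval (x a) := by
  induction t with
  | var j => exact h j
  | zero => exact continuous_const
  | one => exact continuous_const
  | add a b iha ihb => exact iha.add ihb
  | neg a ih => exact ih.neg
  | mul a b iha ihb => exact iha.mul ihb

/-! ### Building blocks -/

/-- difference -/
def sb (s t : Tm) : Tm := .add s (.neg t)
/-- square -/
def sq (t : Tm) : Tm := .mul t t
/-- two -/
def n2 : Tm := .add .one .one
/-- eight -/
def n8 : Tm := .mul n2 (.mul n2 n2)
/-- thirty-two -/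
def n32 : Tm := .mul n8 (.mul n2 n2)

section ring

variable {R : Type*} [CommRing R] (x v : ℕ → R)

@[simp] theorem tev_var (i : ℕ) : tev x (.var i) = x i := rfl
@[simp] theorem tev_zero : tev x .zero = 0 := rfl
@[simp] theorem tev_one : tev x .one = 1 := rfl
@[simp] theorem tev_add (s t : Tm) : tev x (.add s t) = tev x s + tev x t := rfl
@[simp] theorem tev_neg (t : Tm) : tev x (.neg t) = - tev x t := rfl
@[simp] theorem tev_mul (s t : Tm) : tev x (.mul s t) = tev x s * tev x t := rfl
@[simp] theorem tev_sb (s t : Tm) : tev x (sb s t) = tev x s - tev x t := by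
  simp [sb, sub_eq_add_neg]
@[simp] theorem tev_sq (t : Tm) : tev x (sq t) = tev x t ^ 2 := by simp [sq, pow_two]
@[simp] theorem tev_n2 : tev x n2 = 2 := by simp only [n2, tev_add, tev_one]; norm_num
@[simp] theorem tev_n8 : tev x n8 = 8 := by simp only [n8, tev_mul, tev_n2]; norm_num
@[simp] theorem tev_n32 : tev x n32 = 32 := by simp only [n32, tev_mul, tev_n2, tev_n8]; norm_num

@[simp] theorem dif_var (i : ℕ) : dif x v (.var i) = v i := rfl
@[simp] theorem dif_zero : dif x v .zero = 0 := rfl
@[simp] theorem dif_one : dif x v .one = 0 := rfl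
@[simp] theorem dif_add (s t : Tm) : dif x v (.add s t) = dif x v s + dif x v t := rfl
@[simp] theorem dif_neg (t : Tm) : dif x v (.neg t) = - dif x v t := rfl
@[simp] theorem dif_mul (s t : Tm) : dif x v (.mul s t) =
    dif x v s * tev x t + tev x s * dif x v t := rfl
@[simp] theorem dif_sb (s t : Tm) : dif x v (sb s t) = dif x v s - dif x v t := by
  simp [sb, sub_eq_add_neg]
@[simp] theorem dif_sq (t : Tm) : dif x v (sq t) = 2 * tev x t * dif x v t := by
  simp only [sq, dif_mul]; ring
@[simp] theorem dif_n2 : dif x v n2 = 0 := by simp [n2]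
@[simp] theorem dif_n8 : dif x v n8 = 0 := by simp [n8]
@[simp] theorem dif_n32 : dif x v n32 = 0 := by simp [n32]

@[simp] theorem tev_sumTm (l : List Tm) : tev x (sumTm l) = (l.map (tev x)).sum := by
  induction l with
  | nil => rfl
  | cons t l ih =>
    have h : sumTm (t :: l) = Tm.add t (sumTm l) := rfl
    rw [h, tev_add, ih]
    simp

theorem dT_sumTm (j : ℕ) (l : List Tm) : dT j (sumTm l) = sumTm (l.map (dT j)) := by
  induction l with
  | nil => rfl
  | cons t l ih =>
    have h : sumTm (t :: l) = Tm.add t (sumTm l) := rfl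
    rw [h, dT, ih]
    rfl

end ring

theorem VLt_sumTm {N : ℕ} {l : List Tm} : VLt N (sumTm l) ↔ ∀ t ∈ l, VLt N t := by
  induction l with
  | nil => simp [sumTm, VLt]
  | cons t l ih =>
    have h : sumTm (t :: l) = Tm.add t (sumTm l) := rfl
    rw [h, List.forall_mem_cons, ← ih]
    rfl

theorem tdeg_sumTm {k : ℕ} {l : List Tm} : tdeg (sumTm l) ≤ k ↔ ∀ t ∈ l, tdeg t ≤ k := by
  induction l with
  | nil => simp [sumTm, tdeg]
  | cons t l ih =>
    have h : sumTm (t :: l) = Tm.add t (sumTm l) := rfl
    rw [h, List.forall_mem_cons, ← ih]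
    simp [tdeg]

end Pool.Agent.J6H79.RS
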