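import Pool.Agent.J6H79.RS.PolyT
import Pool.Agent.ER.Hard
import Pool.Agent.ER.Dec
import Pool.Agent.H622R2.CoNP

/-!
# `NP` and `∃ℝ`: regular square systems
-/

set_option autoImplicit false

namespace Pool.Agent.NPC.ER.J6H79

open Pool.Agent.NPC.H670R2 Pool.Agent.J6H79.RS

/-- The system has a real solution. -/
def RealSol (S : List Tm) : Prop := ∃ x : ℕ → ℝ, ∀ t ∈ S, t.eval x = 0

/-- Reductions from satisfiability of systems of constraints. -/
theorem reduction' {α : Type} [TEnc α] {f : List Con → α} (hf : Poly f) {L : Set (List Bool)}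
    (hL : InER L) : ∃ g : List Bool → List Con, PolyTime (fun w => bits (f (g w))) ∧
      ∀ w, w ∈ L ↔ Sat (g w) := by
  obtain ⟨g, hg, hL⟩ := hL
  have h1 : PC (id : List Bool → List Bool) (bits : Fm → List Bool) g :=
    H642R2.TMSim.polyTime_toPC hg
  have h2 : Poly (fun φ : Fm => f (sysOf φ)) := Poly.comp hf (poly_sysOf Poly.id)
  have h3 : PC (id : List Bool → List Bool) (bits : α → List Bool) (fun x => f (sysOf (g x))) :=
    PC.comp (g := fun φ : Fm => f (sysOf φ)) (eb := (bits : Fm → List Bool)) h2 h1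
  have h4 : PC (id : List Bool → List Bool) (id : List Bool → List Bool)
    (fun x => bits (f (sysOf (g x)))) := h3
  refine ⟨fun x => sysOf (g x), PC.toPolyTime h4, fun w => ?_⟩
  rw [hL, ← sat_sysOf]

/-- The reduction. -/
theorem reduction {L : Set (List Bool)} (hL : InER L) : ∃ f : List Bool → List Tm,
    PolyTime (fun w => bits (f w)) ∧ (∀ w, Regular (f w)) ∧ ∀ w, w ∈ L ↔ RealSol (f w) := by
  obtain ⟨g, hg, hL⟩ := reduction' (poly_target Poly.id) hL
  exact ⟨fun w => target (g w), hg, fun w => target_regular _, fun w =>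
    (hL w).trans (target_correct _)⟩

/-- The formula saying that the expressions with given tokens vanish. -/
def vanF (l : List (List Tok)) : Fm :=
  conj (l.map fun w => (ofToks (w ++ [Tok.zero, Tok.eq])).getD Fm.ff)

theorem vanF_toks (S : List Tm) : ETR (vanF (S.map Tm.toks)) ↔ RealSol S := by
  unfold ETR RealSol vanF
  apply exists_congr
  intro x
  rw [holds_conj, List.map_map]
  have h : ∀ t : Tm, ofToks (t.toks ++ [Tok.zero, Tok.eq]) = some (Fm.eq t Tm.zero) := by
    intro t
    have := ofToks_toks (Fm.eq t Tm.zero)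
    rw [← this]
    congr 1
    simp [Fm.toks, Tm.toks]
  constructor
  · intro h1 t ht
    have h2 := h1 (Fm.eq t Tm.zero) (List.mem_map.2 ⟨t, ht, by
      simp only [Function.comp, h, Option.getD_some]⟩)
    exact h2
  · rintro h1 φ hφ
    obtain ⟨t, ht, rfl⟩ := List.mem_map.1 hφ
    simp only [Function.comp, h, Option.getD_some]
    exact h1 t ht

theorem poly_vanF : Poly vanF := by
  refine poly_conj (Poly.map (F := fun _ w => (ofToks (w ++ [Tok.zero, Tok.eq])).getD Fm.ff)
    Poly.id ?_)
  have h1 : Poly (fun p : List (List Tok) × List Tok => ofToks (p.2 ++ [Tok.zero, Tok.eq])) :=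
    poly_ofToks.comp (Poly.append (Poly.snd Poly.id) (Poly.const _))
  refine (Poly.optCases (g := fun _ => Fm.ff) (h := fun _ φ => φ) h1 (Poly.const _)
    (Poly.snd Poly.id)).congr fun p => ?_
  generalize ofToks (p.2 ++ [Tok.zero, Tok.eq]) = o
  cases o <;> rfl

/-- The solvable systems form a language in `∃ℝ`. -/
theorem inER_realSol : InER (lang fun l : List (List Tok) => ETR (vanF l)) :=
  InER.of_poly poly_vanF fun _ => Iff.rfl

theorem toT_map_toks : ∀ S : List Tm, toT (S.map Tm.toks) = toT S
  | [] => rfl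
  | t :: S => by
    have h := toT_map_toks S
    show T.node (toT t.toks) (toT (S.map Tm.toks)) = T.node (toT t) (toT S)
    rw [h]
    rfl

theorem bits_mem {S : List Tm} :
    bits S ∈ lang (fun l : List (List Tok) => ETR (vanF l)) ↔ RealSol S := by
  have h : bits S = bits (S.map Tm.toks) := by
    unfold bits
    rw [toT_map_toks]
  rw [h, bits_mem_lang, vanF_toks]

theorem np_iff : (∀ L : Set (List Bool), InER L → InNP L) ↔
    ∃ A : Set (List Bool), InNP A ∧ ∀ S : List Tm, Regular S → (bits S ∈ A ↔ RealSol S) := by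
  constructor
  · intro h
    exact ⟨_, h _ inER_realSol, fun S _ => bits_mem⟩
  · rintro ⟨A, hA, h⟩ L hL
    obtain ⟨f, hf, hreg, hfL⟩ := reduction hL
    refine H622R2.InNP.of_reduces ⟨fun w => bits (f w), hf, fun w => ?_⟩ hA
    rw [hfL, h _ (hreg w)]

end Pool.Agent.NPC.ER.J6H79
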