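import Mathlib

/-!
# Integrality of the solutions of systems `xᵢ ^ 5 = (polynomial of degree at most 4)`
-/

set_option autoImplicit false

namespace Pool.Agent.J6H79.RS

section mon

variable {m : ℕ} {R : Type*} [CommRing R] {X : Fin m → R}

/-- monomials -/
def mon (X : Fin m → R) (β : Fin m → ℕ) : R := ∏ i, X i ^ β i

theorem mon_mul (β γ : Fin m → ℕ) : mon X β * mon X γ = mon X (fun i => β i + γ i) := by
  simp only [mon, pow_add, Finset.prod_mul_distrib]

/-- the integer polynomials of degree at most `k` in the elements `X i` -/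
def Dg (X : Fin m → R) (k : ℕ) : Submodule ℤ R :=
  Submodule.span ℤ {z | ∃ β : Fin m → ℕ, ∑ i, β i ≤ k ∧ z = mon X β}

theorem mon_mem {β : Fin m → ℕ} {k : ℕ} (h : ∑ i, β i ≤ k) : mon X β ∈ Dg X k :=
  Submodule.subset_span ⟨β, h, rfl⟩

theorem Dg_mono {k l : ℕ} (h : k ≤ l) : Dg X k ≤ Dg X l :=
  Submodule.span_mono fun _ ⟨β, hβ, hz⟩ => ⟨β, hβ.trans h, hz⟩

theorem one_mem_Dg (k : ℕ) : (1 : R) ∈ Dg X k := by
  have h := mon_mem (X := X) (β := fun _ => 0) (k := k) (by simp)
  simpa [mon] using h

theorem coord_mem_Dg (i : Fin m) : X i ∈ Dg X 1 := by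
  classical
  have h := mon_mem (X := X) (β := fun j => if j = i then 1 else 0) (k := 1) (by simp)
  have h2 : mon X (fun j => if j = i then 1 else 0) = X i := by
    unfold mon
    rw [Finset.prod_eq_single i]
    · simp
    · intro b _ hb
      simp [hb]
    · intro h
      exact absurd (Finset.mem_univ _) h
  rwa [h2] at h

theorem mul_mem_Dg {a b : ℕ} {f g : R} (hf : f ∈ Dg X a) (hg : g ∈ Dg X b) :
    f * g ∈ Dg X (a + b) := by
  have h := Submodule.mul_mem_mul hf hg
  unfold Dg at h
  rw [Submodule.span_mul_span] at h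
  refine Submodule.span_le.2 ?_ h
  rintro _ ⟨_, ⟨β, hβ, rfl⟩, _, ⟨γ, hγ, rfl⟩, rfl⟩
  show mon X β * mon X γ ∈ Dg X (a + b)
  rw [mon_mul]
  apply mon_mem
  rw [Finset.sum_add_distrib]
  omega

/-- the span of the monomials with exponents less than five -/
def Red (X : Fin m → R) : Submodule ℤ R :=
  Submodule.span ℤ (Set.range fun α : Fin m → Fin 5 => mon X fun i => (α i : ℕ))

theorem mon_red (h : ∀ j, X j ^ 5 ∈ Dg X 4) :
    ∀ (k : ℕ) (β : Fin m → ℕ), ∑ i, β i ≤ k → mon X β ∈ Red X := by
  classical
  intro k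
  induction k with
  | zero =>
    intro β hβ
    have hβ0 : ∀ i, β i < 5 := by
      intro i
      have := Finset.single_le_sum (f := β) (fun _ _ => Nat.zero_le _) (Finset.mem_univ i)
      omega
    exact Submodule.subset_span ⟨fun i => ⟨β i, hβ0 i⟩, rfl⟩
  | succ k ih =>
    intro β hβ
    by_cases hall : ∀ i, β i < 5
    · exact Submodule.subset_span ⟨fun i => ⟨β i, hall i⟩, rfl⟩
    · push Not at hall
      obtain ⟨j, hj⟩ := hall
      set β' : Fin m → ℕ := Function.update β j (β j - 5) with hβ'
      have h1 : ∀ i, β i = β' i + if i = j then 5 else 0 := by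
        intro i
        by_cases hij : i = j
        · subst hij; simp [hβ']; omega
        · simp [hβ', hij]
      have hsum' : ∑ i, β' i + 5 = ∑ i, β i := by
        calc _ = ∑ i, (β' i + if i = j then 5 else 0) := by
              rw [Finset.sum_add_distrib]; simp
          _ = _ := Finset.sum_congr rfl fun i _ => (h1 i).symm
      have hsplit : mon X β = mon X β' * X j ^ 5 := by
        have h2 : ∀ i, X i ^ β i = X i ^ β' i * (if i = j then X j ^ 5 else 1) := by
          intro i
          rw [h1 i, pow_add]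
          by_cases hij : i = j
          · subst hij; simp
          · simp [hij]
        unfold mon
        rw [Finset.prod_congr rfl fun i _ => h2 i, Finset.prod_mul_distrib]
        simp
      rw [hsplit]
      have key : ∀ z ∈ Dg X 4, mon X β' * z ∈ Red X := by
        intro z hz
        unfold Dg at hz
        induction hz using Submodule.span_induction with
        | mem z hz =>
          obtain ⟨γ, hγ, rfl⟩ := hz
          rw [mon_mul]
          apply ih
          rw [Finset.sum_add_distrib]
          omega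
        | zero => rw [mul_zero]; exact Submodule.zero_mem _
        | add y z _ _ hy hz => rw [mul_add]; exact Submodule.add_mem _ hy hz
        | smul a z _ hz => rw [mul_smul_comm]; exact Submodule.smul_mem _ _ hz
      exact key _ (h j)

/-- The elements `X j` are integral if their fifth powers are polynomials of smaller degree. -/
theorem isIntegral_coord (h : ∀ j, X j ^ 5 ∈ Dg X 4) (j : Fin m) : IsIntegral ℤ (X j) := by
  have hall : ∀ β, mon X β ∈ Red X := fun β => mon_red h _ β le_rfl
  have h1 : (1 : R) ∈ Red X := by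
    have := hall fun _ => 0
    simpa [mon] using this
  have hmul : ∀ x y, x ∈ Red X → y ∈ Red X → x * y ∈ Red X := by
    intro x y hx hy
    have h := Submodule.mul_mem_mul hx hy
    unfold Red at h
    rw [Submodule.span_mul_span] at h
    refine Submodule.span_le.2 ?_ h
    rintro _ ⟨_, ⟨β, rfl⟩, _, ⟨γ, rfl⟩, rfl⟩
    show mon X _ * mon X _ ∈ Red X
    rw [mon_mul]
    exact hall _
  have hX : X j ∈ Red X := by
    have h2 := coord_mem_Dg (X := X) j
    refine Submodule.span_le.2 ?_ h2
    rintro _ ⟨β, -, rfl⟩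
    exact hall β
  refine IsIntegral.of_mem_of_fg ((Red X).toSubalgebra h1 hmul) ?_ _ hX
  show (Submodule.FG _)
  rw [Submodule.toSubalgebra_toSubmodule]
  exact Submodule.fg_span (Set.finite_range _)

end mon

/-- Integral functions take finitely many values. -/
theorem finite_range_of_isIntegral {Sol : Type*} {f : Sol → ℂ} (h : IsIntegral ℤ f) :
    (Set.range f).Finite := by
  obtain ⟨p, hp, h0⟩ := h
  have h1 : ∀ y, Polynomial.aeval (f y) p = 0 := by
    intro y
    have h2 := congrArg (Pi.evalRingHom (fun _ : Sol => ℂ) y) h0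
    rw [Polynomial.hom_eval₂] at h2
    rw [Polynomial.aeval_def]
    have h3 : (Pi.evalRingHom (fun _ : Sol => ℂ) y).comp (algebraMap ℤ (Sol → ℂ)) =
      algebraMap ℤ ℂ := RingHom.ext_int _ _
    rw [h3] at h2
    simpa using h2
  have h2 : (p.rootSet ℂ).Finite := Polynomial.rootSet_finite p ℂ
  refine h2.subset ?_
  rintro _ ⟨y, rfl⟩
  rw [Polynomial.mem_rootSet]
  exact ⟨hp.ne_zero, h1 y⟩

/-- A rational number that is an algebraic integer. -/
theorem dvd_of_isIntegral {z : ℂ} (hz : IsIntegral ℤ z) {E T : ℤ} (hE : E ≠ 0)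
    (h : (E : ℂ) * z = T) : E ∣ T := by
  have hEC : (E : ℂ) ≠ 0 := by exact_mod_cast hE
  have h1 : z = algebraMap ℚ ℂ ((T : ℚ) / E) := by
    have h2 : (algebraMap ℚ ℂ ((T : ℚ) / E)) = (T : ℂ) / E := by simp
    rw [h2, ← h]
    field_simp
  rw [h1] at hz
  have h2 : IsIntegral ℤ ((T : ℚ) / E) := (isIntegral_algebraMap_iff (algebraMap ℚ ℂ).injective).1 hz
  obtain ⟨k, hk⟩ := IsIntegrallyClosed.isIntegral_iff.1 h2
  refine ⟨k, ?_⟩
  have hEQ : (E : ℚ) ≠ 0 := by exact_mod_cast hE
  have h3 : (algebraMap ℤ ℚ k) = (k : ℚ) := rfl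
  rw [h3] at hk
  have h4 : (T : ℚ) = E * k := by
    rw [hk]
    field_simp
  exact_mod_cast h4

/-- Eigenvalues of matrices of algebraic integers are algebraic integers. -/
theorem isIntegral_eigen {m : ℕ} (C : Fin m → Fin m → ℂ) (hC : ∀ i j, IsIntegral ℤ (C i j))
    (v : Fin m → ℂ) {i₀ : Fin m} (hv : v i₀ ≠ 0) (μ : ℂ) (h : ∀ i, μ * v i = ∑ j, C i j * v j) :
    IsIntegral ℤ μ := by
  let O := integralClosure ℤ ℂ
  let N : Submodule O ℂ := Submodule.span O (Set.range v)
  have h1 : IsIntegral O μ := by
    refine isIntegral_of_smul_mem_submodule N ?_ ?_ μ ?_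
    · intro h0
      have : v i₀ ∈ N := Submodule.subset_span ⟨i₀, rfl⟩
      rw [h0, Submodule.mem_bot] at this
      exact hv this
    · exact Submodule.fg_span (Set.finite_range _)
    · intro n hn
      show μ • n ∈ N
      refine Submodule.span_induction (p := fun n _ => μ • n ∈ N) ?_ ?_ ?_ ?_ hn
      · rintro _ ⟨i, rfl⟩
        rw [smul_eq_mul, h i]
        apply Submodule.sum_mem
        intro j _
        have h2 : C i j * v j = (⟨C i j, hC i j⟩ : O) • v j := rfl
        rw [h2]
        exact Submodule.smul_mem _ _ (Submodule.subset_span ⟨j, rfl⟩)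
      · rw [smul_zero]; exact Submodule.zero_mem _
      · intro x y _ _ hx hy
        rw [smul_add]
        exact Submodule.add_mem _ hx hy
      · intro a x _ hx
        rw [smul_comm]
        exact Submodule.smul_mem _ _ hx
  exact isIntegral_trans μ h1

end Pool.Agent.J6H79.RS
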