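import Pool.Agent.J6H79.RS.RealP

/-!
# The reduction is computable in polynomial time
-/

set_option autoImplicit false

namespace Pool.Agent.NPC.ER.J6H79

open Pool.Agent.NPC.H670R2 Pool.Agent.J6H79.RS

theorem idxOf_eq_aux (v : ℕ) : ∀ (l : List ℕ) (n : ℕ),
    ((((l.zipIdx n).filter fun q => decide (q.1 = v)).head?.map fun q => q.2).getD
      (n + l.length)) = n + l.idxOf v
  | [], n => by simp
  | a :: l, n => by
    rw [List.zipIdx_cons]
    by_cases h : a = v
    · subst h
      simp
    · rw [List.filter_cons_of_neg (by simpa using h), List.idxOf_cons_ne _ h, List.length_cons]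
      have := idxOf_eq_aux v l (n + 1)
      rw [show n + (l.length + 1) = n + 1 + l.length by ring, this]
      omega

section

variable {α : Type} [TEnc α]

theorem poly_idxOf {l : α → List ℕ} {v : α → ℕ} (hl : Poly l) (hv : Poly v) :
    Poly (fun a => (l a).idxOf (v a)) := by
  have h1 : Poly (fun a => ((l a).zipIdx.filter fun q => decide (q.1 = v a)).head?) :=
    Poly.head? (Poly.filter (p := fun a q => decide (q.1 = v a)) (Poly.zipIdx hl)
      (Poly.decide_eq (Poly.fst (Poly.snd Poly.id)) (hv.comp (Poly.fst Poly.id))))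
  have h3 : ∀ a, (l a).idxOf (v a) = ((((l a).zipIdx.filter fun q => decide (q.1 = v a)).head?.map
      fun q => q.2).getD (l a).length) := by
    intro a
    have h3 := idxOf_eq_aux (v a) (l a) 0
    rw [Nat.zero_add, Nat.zero_add] at h3
    exact h3.symm
  have h2 := Poly.optCases (g := fun a => (l a).length) (h := fun _ q => q.2) h1 (Poly.length hl)
    (Poly.snd (Poly.snd Poly.id))
  refine h2.congr fun a => ?_
  rw [h3 a]
  generalize ((l a).zipIdx.filter fun q => decide (q.1 = v a)).head? = o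
  cases o <;> rfl

theorem vars_eq (c : Con) : c.vars = if c.code.1 = 0 then [c.code.2.1] else
    [c.code.2.1, c.code.2.2.1, c.code.2.2.2] := by
  cases c <;> rfl

theorem poly_cvars {c : α → Con} (hc : Poly c) : Poly (fun a => (c a).vars) := by
  have h0 : Poly (fun a => (c a).code) := poly_con_code hc
  have h1 := Poly.fst h0
  have h2 := Poly.fst (Poly.snd h0)
  have h3 := Poly.fst (Poly.snd (Poly.snd h0))
  have h4 := Poly.snd (Poly.snd (Poly.snd h0))
  exact (Poly.ite (Poly.decide_eq h1 (Poly.const 0)) (Poly.cons h2 (Poly.const []))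
    (Poly.cons h2 (Poly.cons h3 (Poly.cons h4 (Poly.const []))))).congr fun a => (vars_eq _).symm

theorem poly_svars {L : α → List Con} (hL : Poly L) : Poly (fun a => svars (L a)) :=
  Poly.flatMap (F := fun _ c => Con.vars c) hL (poly_cvars (Poly.snd Poly.id))

theorem rnm_eq (f : ℕ → ℕ) (c : Con) : rnm f c = if c.code.1 = 0 then Con.one (f c.code.2.1) else
    if c.code.1 = 1 then Con.add (f c.code.2.1) (f c.code.2.2.1) (f c.code.2.2.2) else
    Con.mul (f c.code.2.1) (f c.code.2.2.1) (f c.code.2.2.2) := by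
  cases c <;> rfl

theorem poly_rnm {f : α → ℕ → ℕ} {c : α → Con} (hf : ∀ i : α → ℕ, Poly i → Poly fun a => f a (i a))
    (hc : Poly c) : Poly (fun a => rnm (f a) (c a)) := by
  have h0 : Poly (fun a => (c a).code) := poly_con_code hc
  have h1 := Poly.fst h0
  have h2 := hf _ (Poly.fst (Poly.snd h0))
  have h3 := hf _ (Poly.fst (Poly.snd (Poly.snd h0)))
  have h4 := hf _ (Poly.snd (Poly.snd (Poly.snd h0)))
  exact (Poly.ite (Poly.decide_eq h1 (Poly.const 0)) (poly_con_one h2)
    (Poly.ite (Poly.decide_eq h1 (Poly.const 1)) (poly_con_add h2 h3 h4)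
      (poly_con_mul h2 h3 h4))).congr fun a => (rnm_eq _ _).symm

theorem poly_rL {L : α → List Con} (hL : Poly L) : Poly (fun a => rL (L a)) := by
  refine Poly.map (F := fun a c => rnm (nm (L a)) c) hL ?_
  refine poly_rnm (f := fun p : α × Con => nm (L p.1)) ?_ (Poly.snd Poly.id)
  intro i hi
  exact poly_idxOf (poly_svars (hL.comp (Poly.fst Poly.id))) hi

/-! ### terms -/

theorem poly_sb {s t : α → Tm} (hs : Poly s) (ht : Poly t) : Poly (fun a => sb (s a) (t a)) :=
  poly_tadd hs (poly_tneg ht)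

theorem poly_sq {t : α → Tm} (ht : Poly t) : Poly (fun a => sq (t a)) := poly_tmul ht ht

theorem poly_dl {i j : α → ℕ} (hi : Poly i) (hj : Poly j) : Poly (fun a => dl (i a) (j a)) :=
  Poly.ite (Poly.decide_eq hj hi) (Poly.const Tm.one) (Poly.const Tm.zero)

theorem eT_eq (c : Con) : eT c = if c.code.1 = 0 then sb (.mul n8 (.var c.code.2.1)) .one else
    if c.code.1 = 1 then sb (.add (.var c.code.2.1) (.var c.code.2.2.1)) (.var c.code.2.2.2) else
    sb (.mul (.var c.code.2.1) (.var c.code.2.2.1)) (.var c.code.2.2.2) := by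
  cases c <;> rfl

theorem poly_eT {c : α → Con} (hc : Poly c) : Poly (fun a => eT (c a)) := by
  have h0 : Poly (fun a => (c a).code) := poly_con_code hc
  have h1 := Poly.fst h0
  have h2 := poly_tvar (Poly.fst (Poly.snd h0))
  have h3 := poly_tvar (Poly.fst (Poly.snd (Poly.snd h0)))
  have h4 := poly_tvar (Poly.snd (Poly.snd (Poly.snd h0)))
  exact (Poly.ite (Poly.decide_eq h1 (Poly.const 0)) (poly_sb (poly_tmul (Poly.const n8) h2)
    (Poly.const Tm.one)) (Poly.ite (Poly.decide_eq h1 (Poly.const 1)) (poly_sb (poly_tadd h2 h3) h4)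
      (poly_sb (poly_tmul h2 h3) h4))).congr fun a => (eT_eq _).symm

theorem deT_eq (i : ℕ) (c : Con) : deT i c =
    if c.code.1 = 0 then .mul n8 (dl i c.code.2.1) else
    if c.code.1 = 1 then sb (.add (dl i c.code.2.1) (dl i c.code.2.2.1)) (dl i c.code.2.2.2) else
    sb (.add (.mul (dl i c.code.2.1) (.var c.code.2.2.1))
      (.mul (.var c.code.2.1) (dl i c.code.2.2.1))) (dl i c.code.2.2.2) := by
  cases c <;> rfl

theorem poly_deT {i : α → ℕ} {c : α → Con} (hi : Poly i) (hc : Poly c) :
    Poly (fun a => deT (i a) (c a)) := by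
  have h0 : Poly (fun a => (c a).code) := poly_con_code hc
  have h1 := Poly.fst h0
  have h2 := Poly.fst (Poly.snd h0)
  have h3 := Poly.fst (Poly.snd (Poly.snd h0))
  have h4 := Poly.snd (Poly.snd (Poly.snd h0))
  exact (Poly.ite (Poly.decide_eq h1 (Poly.const 0)) (poly_tmul (Poly.const n8) (poly_dl hi h2))
    (Poly.ite (Poly.decide_eq h1 (Poly.const 1))
      (poly_sb (poly_tadd (poly_dl hi h2) (poly_dl hi h3)) (poly_dl hi h4))
      (poly_sb (poly_tadd (poly_tmul (poly_dl hi h2) (poly_tvar h3))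
        (poly_tmul (poly_tvar h2) (poly_dl hi h3))) (poly_dl hi h4)))).congr
          fun a => (deT_eq _ _).symm

theorem poly_bx {n v : α → ℕ} (hn : Poly n) (hv : Poly v) : Poly (fun a => bx (n a) (v a)) :=
  poly_sb (poly_tmul (Poly.const n8) (poly_tadd (poly_sq (poly_tvar hv))
    (poly_sq (poly_tvar (Poly.add hn hv))))) (Poly.const Tm.one)

theorem poly_gT {n : α → ℕ} {L : α → List Con} (hn : UPoly n) (hL : Poly L) :
    Poly (fun a => gT (n a) (L a)) := by
  refine poly_tadd (poly_sumTm ?_) (poly_sumTm ?_)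
  · exact Poly.map (F := fun _ c => sq (eT c)) hL (poly_sq (poly_eT (Poly.snd Poly.id)))
  · exact Poly.map (F := fun a v => sq (bx (n a) v)) hn.range
      (poly_sq (poly_bx (hn.toPoly.comp (Poly.fst Poly.id)) (Poly.snd Poly.id)))

theorem poly_GT {n i : α → ℕ} {L : α → List Con} (hn : Poly n) (hi : Poly i) (hL : Poly L) :
    Poly (fun a => GT (n a) (L a) (i a)) := by
  refine poly_tadd (poly_tmul (Poly.const n2) (poly_sumTm ?_)) (poly_tmul (Poly.const n32)
    (poly_tmul (poly_bx hn ?_) (poly_tvar hi)))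
  · exact Poly.map (F := fun a c => Tm.mul (eT c) (deT (i a) c)) hL
      (poly_tmul (poly_eT (Poly.snd Poly.id)) (poly_deT (hi.comp (Poly.fst Poly.id))
        (Poly.snd Poly.id)))
  · exact Poly.ite (Poly.decide_lt hi hn) hi (Poly.sub hi hn)

theorem poly_ep {n j : α → ℕ} (hn : Poly n) (hj : Poly j) : Poly (fun a => ep (n a) (j a)) :=
  Poly.add (Poly.add (Poly.mul (Poly.const 2) hn) (Poly.const 1)) hj

theorem poly_crit {n K i : α → ℕ} {L : α → List Con} (hn : Poly n) (hK : Poly K) (hi : Poly i)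
    (hL : Poly L) : Poly (fun a => crit (n a) (K a) (L a) (i a)) :=
  poly_tadd (poly_tmul (poly_tvar (poly_ep hn (Poly.succ hK))) (poly_tadd (poly_tmul
    (poly_sq (poly_sq (poly_tvar hi))) (poly_tvar hi)) (Poly.const Tm.one))) (poly_GT hn hi hL)

/-- The system is computable in polynomial time. -/
theorem poly_sys {n K : α → ℕ} {L : α → List Con} (hn : UPoly n) (hK : UPoly K) (hL : Poly L) :
    Poly (fun a => sys (n a) (K a) (L a)) := by
  refine Poly.append ?_ (Poly.cons ?_ (Poly.cons ?_ ?_))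
  · exact Poly.map (F := fun a i => crit (n a) (K a) (L a) i)
      (UPoly.range (UPoly.mul (UPoly.const 2) hn))
      (poly_crit (hn.toPoly.comp (Poly.fst Poly.id)) (hK.toPoly.comp (Poly.fst Poly.id))
        (Poly.snd Poly.id) (hL.comp (Poly.fst Poly.id)))
  · exact poly_sb (poly_tadd (poly_sq (poly_tvar (Poly.mul (Poly.const 2) hn.toPoly)))
      (poly_gT hn hL)) (poly_tvar (poly_ep hn.toPoly hK.toPoly))
  · exact poly_sb (poly_tmul (Poly.const n2) (poly_tvar (poly_ep hn.toPoly (Poly.const 0))))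
      (Poly.const Tm.one)
  · exact Poly.map (F := fun a j => ch (n a) j) (UPoly.range (UPoly.add hK (UPoly.const 1)))
      (poly_sb (poly_sq (poly_tvar (poly_ep (hn.toPoly.comp (Poly.fst Poly.id))
        (Poly.snd Poly.id)))) (poly_tvar (poly_ep (hn.toPoly.comp (Poly.fst Poly.id))
          (Poly.succ (Poly.snd Poly.id)))))

/-- The reduction is computable in polynomial time. -/
theorem poly_target {S : α → List Con} (hS : Poly S) : Poly (fun a => target (S a)) := by
  have hb := poly_bsys hS
  exact poly_sys (UPoly.length (poly_svars hb)) (UPoly.add (UPoly.add (UPoly.mul (UPoly.const 11)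
    (UPoly.length hb)) (UPoly.const 7)) (UPoly.const 1)) (poly_rL hb)

end

end Pool.Agent.NPC.ER.J6H79
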