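import Pool.Agent.J6H79.RS.Reg

/-!
# Real solutions of the system
-/

set_option autoImplicit false

namespace Pool.Agent.J6H79.RS

open Pool.Agent.NPC Pool.Agent.NPC.ER

/-! ### Renaming of the variables -/

/-- renaming -/
def rnm (f : ℕ → ℕ) : Con → Con
  | .one i => .one (f i)
  | .add i j k => .add (f i) (f j) (f k)
  | .mul i j k => .mul (f i) (f j) (f k)

/-- the new names -/
def nm (L : List Con) (i : ℕ) : ℕ := (svars L).idxOf i

/-- the system with the new names -/
def rL (L : List Con) : List Con := L.map (rnm (nm L))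

theorem vars_rnm (f : ℕ → ℕ) (c : Con) : (rnm f c).vars = c.vars.map f := by
  cases c <;> rfl

theorem vars_rL {L : List Con} : ∀ c ∈ rL L, ∀ i ∈ c.vars, i < (svars L).length := by
  intro c hc i hi
  obtain ⟨c', hc', rfl⟩ := List.mem_map.1 hc
  rw [vars_rnm] at hi
  obtain ⟨i', hi', rfl⟩ := List.mem_map.1 hi
  exact List.idxOf_lt_length_of_mem (mem_svars hc' hi')

theorem eval_eT_rnm (f : ℕ → ℕ) (c : Con) (x : ℕ → ℝ) :
    (eT (rnm f c)).eval x = c.err fun i => x (f i) := by
  rw [← tev_real]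
  cases c <;> simp [eT, rnm, Con.err]

theorem err_congr {v v' : ℕ → ℝ} {c : Con} (h : ∀ i ∈ c.vars, v i = v' i) : c.err v = c.err v' := by
  cases c <;> simp [Con.vars] at h <;> simp [Con.err, h]

/-! ### From real solutions to solutions of the constraints -/

theorem sat_of_real {L : List Con} {x : ℕ → ℝ}
    (h : ∀ t ∈ sys (svars L).length (gapK L.length + 1) (rL L), t.eval x = 0) :
    ∃ w', ∀ c ∈ L, c.HoldsC (1 / 8) w' := by
  refine holds_of_approx (w := fun i => x (nm L i)) ?_ ?_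
  · intro i hi
    refine coord_le h ?_
    have : nm L i < (svars L).length := List.idxOf_lt_length_of_mem hi
    omega
  · intro c hc
    have h1 := err_le h (c := rnm (nm L) c) (List.mem_map.2 ⟨c, hc, rfl⟩)
    rw [eval_eT_rnm] at h1
    have h2 : ((1 : ℝ) / 2) ^ 2 ^ (gapK L.length + 1) = ((1 / 2) ^ 2 ^ gapK L.length) ^ 2 := by
      rw [← pow_mul]; congr 1
    rw [h2] at h1
    have h3 := abs_le_of_sq_le_sq h1 (by positivity)
    calc |Con.err (fun i => x (nm L i)) c| * 2 ^ 2 ^ gapK L.length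
        ≤ (1 / 2) ^ 2 ^ gapK L.length * 2 ^ 2 ^ gapK L.length :=
          mul_le_mul_of_nonneg_right h3 (by positivity)
      _ = 1 := by rw [mul_comm]; exact two_pow_mul_ep _

/-! ### Critical points -/

theorem pot_ge (t : ℝ) : -(5 / 6) ≤ t ^ 6 / 6 + t := by
  have h1 : 0 ≤ (t + 1) ^ 2 * ((t ^ 2 - t) ^ 2 + 2 * (t - 1) ^ 2 + 3) := by positivity
  nlinarith

theorem pot_large {t R : ℝ} (hR : 2 ≤ R) (h : R < |t|) : 4 * R ≤ t ^ 6 / 6 + t := by
  have h1 : t ^ 6 = |t| ^ 6 := by rw [← abs_pow, abs_of_nonneg (by positivity)]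
  have h2 : (32 : ℝ) ≤ |t| ^ 5 := by
    calc (32 : ℝ) = 2 ^ 5 := by norm_num
      _ ≤ |t| ^ 5 := pow_le_pow_left₀ (by norm_num) (by linarith) 5
  have h3 : 32 * |t| ≤ t ^ 6 := by
    rw [h1]
    calc 32 * |t| ≤ |t| ^ 5 * |t| := mul_le_mul_of_nonneg_right h2 (abs_nonneg _)
      _ = |t| ^ 6 := by ring
  have h4 := neg_abs_le t
  linarith

theorem pot_small {t : ℝ} (h : |t| ≤ 1) : t ^ 6 / 6 + t ≤ 7 / 6 := by
  have h1 : t ^ 6 = |t| ^ 6 := by rw [← abs_pow, abs_of_nonneg (by positivity)]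
  have h2 : |t| ^ 6 ≤ 1 := pow_le_one₀ (abs_nonneg _) h
  have h3 := le_abs_self t
  rw [h1]
  linarith

/-- Minimisation. -/
theorem exists_min {m : ℕ} (g : (Fin m → ℝ) → ℝ) (hc : Continuous g) (h0 : ∀ y, 0 ≤ g y)
    (x₀ : Fin m → ℝ) (hx₀ : ∀ i, |x₀ i| ≤ 1) (hg₀ : g x₀ = 0) (A : ℝ) (hA : 0 ≤ A) :
    ∃ y : Fin m → ℝ, (∀ z, ∑ i, (y i ^ 6 / 6 + y i) + A * g y ≤
      ∑ i, (z i ^ 6 / 6 + z i) + A * g z) ∧ A * g y ≤ 2 * m := by
  set F : (Fin m → ℝ) → ℝ := fun z => ∑ i, (z i ^ 6 / 6 + z i) + A * g z with hF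
  set R : ℝ := 2 * m + 2 with hR
  have hR2 : 2 ≤ R := by rw [hR]; have : (0 : ℝ) ≤ m := Nat.cast_nonneg _; linarith
  set B : Set (Fin m → ℝ) := Set.pi Set.univ fun _ => Set.Icc (-R) R with hB
  have hBc : IsCompact B := isCompact_univ_pi fun _ => isCompact_Icc
  have hFc : Continuous F := by
    rw [hF]
    fun_prop
  have hx₀B : x₀ ∈ B := by
    intro i _
    have := abs_le.1 (hx₀ i)
    exact ⟨by linarith, by linarith⟩
  obtain ⟨y, hy, hmin⟩ := hBc.exists_isMinOn ⟨x₀, hx₀B⟩ hFc.continuousOn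
  have hFx₀ : F x₀ ≤ m * (7 / 6) := by
    rw [hF]
    simp only [hg₀, mul_zero, add_zero]
    have := Finset.sum_le_card_nsmul Finset.univ (fun i => x₀ i ^ 6 / 6 + x₀ i) (7 / 6)
      (fun i _ => pot_small (hx₀ i))
    simpa using this
  have hlow : ∀ z : Fin m → ℝ, (m : ℝ) * -(5 / 6) ≤ ∑ i, (z i ^ 6 / 6 + z i) := by
    intro z
    have := Finset.card_nsmul_le_sum Finset.univ (fun i => z i ^ 6 / 6 + z i) (-(5 / 6))
      (fun i _ => pot_ge (z i))
    simpa using this
  have hall : ∀ z, F y ≤ F z := by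
    intro z
    by_cases hz : z ∈ B
    · exact hmin hz
    · have h1 : ∃ i, R < |z i| := by
        by_contra hno
        push Not at hno
        exact hz fun i _ => abs_le.1 (hno i)
      obtain ⟨i, hi⟩ := h1
      have h2 := pot_large hR2 hi
      have h3 : ∑ i, (z i ^ 6 / 6 + z i) = (z i ^ 6 / 6 + z i) +
          ∑ j ∈ Finset.univ.erase i, (z j ^ 6 / 6 + z j) :=
        (Finset.add_sum_erase _ _ (Finset.mem_univ i)).symm
      have h4 : (m : ℝ) * -(5 / 6) ≤ ∑ j ∈ Finset.univ.erase i, (z j ^ 6 / 6 + z j) := by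
        have h5 := Finset.card_nsmul_le_sum (Finset.univ.erase i) (fun i => z i ^ 6 / 6 + z i)
          (-(5 / 6)) (fun i _ => pot_ge (z i))
        rw [nsmul_eq_mul] at h5
        refine le_trans ?_ h5
        have h6 : (((Finset.univ.erase i).card : ℕ) : ℝ) ≤ m := by
          have := Finset.card_le_univ (Finset.univ.erase i)
          rw [Fintype.card_fin] at this
          exact_mod_cast this
        nlinarith
      have h5 : 0 ≤ A * g z := mul_nonneg hA (h0 z)
      have h6 : F y ≤ F x₀ := hmin hx₀B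
      have h7 : F z = ∑ i, (z i ^ 6 / 6 + z i) + A * g z := rfl
      have h8 : (0 : ℝ) ≤ m := Nat.cast_nonneg _
      rw [h7, h3]
      rw [hR] at h2
      linarith
  refine ⟨y, hall, ?_⟩
  have h1 := hlow y
  have h2 := hall x₀
  have h3 : F y = ∑ i, (y i ^ 6 / 6 + y i) + A * g y := rfl
  have h4 : F x₀ ≤ m * (7 / 6) := hFx₀
  rw [h3] at h2
  linarith

/-- extension by zero -/
def xt {m : ℕ} (y : Fin m → ℝ) : ℕ → ℝ := fun i => if h : i < m then y ⟨i, h⟩ else 0

theorem xt_update {m : ℕ} (y : Fin m → ℝ) (i : Fin m) (s : ℝ) :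
    xt (Function.update y i s) = Function.update (xt y) i s := by
  funext j
  unfold xt
  by_cases hj : j = i
  · subst hj
    rw [Function.update_self, dif_pos i.2]
    simp
  · rw [Function.update_of_ne hj]
    by_cases hjm : j < m
    · rw [dif_pos hjm, dif_pos hjm, Function.update_of_ne]
      intro h
      exact hj (congrArg Fin.val h)
    · rw [_root_.dif_neg hjm, _root_.dif_neg hjm]

/-- The equations at the minimum. -/
theorem crit_eq {m : ℕ} (t : Tm) (A : ℝ) (y : Fin m → ℝ)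
    (h : ∀ z : Fin m → ℝ, ∑ i, (y i ^ 6 / 6 + y i) + A * t.eval (xt y) ≤
      ∑ i, (z i ^ 6 / 6 + z i) + A * t.eval (xt z)) (i : Fin m) :
    y i ^ 5 + 1 + A * (dT i t).eval (xt y) = 0 := by
  classical
  have hsum : ∀ s : ℝ, ∑ j, ((Function.update y i s) j ^ 6 / 6 + (Function.update y i s) j) =
      (s ^ 6 / 6 + s) + ∑ j ∈ Finset.univ.erase i, (y j ^ 6 / 6 + y j) := by
    intro s
    rw [← Finset.add_sum_erase _ _ (Finset.mem_univ i)]
    congr 1
    · rw [Function.update_self]
    · apply Finset.sum_congr rfl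
      intro j hj
      rw [Function.update_of_ne (Finset.ne_of_mem_erase hj)]
  have hd1 : HasDerivAt (fun s : ℝ => s ^ 6 / 6 + s) (y i ^ 5 + 1) (y i) := by
    have h1 := ((hasDerivAt_pow 6 (y i)).div_const 6).add (hasDerivAt_id (y i))
    refine h1.congr_deriv ?_
    push_cast
    ring
  have hd2 := (hasDerivAt_tm t (xt y) i (y i)).const_mul A
  have hd := hd1.add hd2
  have hmin : IsLocalMin ((fun s : ℝ => s ^ 6 / 6 + s) +
      fun s => A * t.eval (Function.update (xt y) i s)) (y i) := by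
    apply Filter.Eventually.of_forall
    intro s
    have h1 := h (Function.update y i s)
    have h2 := hsum (y i)
    rw [Function.update_eq_self] at h2
    rw [h2, hsum s, xt_update] at h1
    have h3 : Function.update (xt y) (i : ℕ) (y i) = xt y := by
      rw [← xt_update, Function.update_eq_self]
    simp only [Pi.add_apply, h3]
    linarith
  have h1 := hmin.hasDerivAt_eq_zero hd
  have h3 : Function.update (xt y) (i : ℕ) (y i) = xt y := by
    rw [← xt_update, Function.update_eq_self]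
  rw [h3] at h1
  exact h1

/-! ### From solutions of the constraints to real solutions -/

/-- A solution in the unit cube gives a real solution of the system. -/
theorem real_of_zero {n K : ℕ} {L : List Con} (hL : ∀ c ∈ L, ∀ i ∈ c.vars, i < n)
    (hK : 4 * n ≤ 2 ^ 2 ^ K) (x₀ : Fin (2 * n) → ℝ) (hx₀ : ∀ i, |x₀ i| ≤ 1)
    (hg₀ : (gT n L).eval (xt x₀) = 0) : ∃ x : ℕ → ℝ, ∀ t ∈ sys n K L, t.eval x = 0 := by
  have hcont : Continuous fun y : Fin (2 * n) → ℝ => (gT n L).eval (xt y) := by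
    apply continuous_tm
    intro i
    unfold xt
    by_cases hi : i < 2 * n
    · simp only [hi, dif_pos]
      exact continuous_apply _
    · simp only [hi]
      exact continuous_const
  obtain ⟨y, hmin, hval⟩ := exists_min (fun y : Fin (2 * n) → ℝ => (gT n L).eval (xt y)) hcont
    (fun y => gT_nonneg _) x₀ hx₀ hg₀ (2 ^ 2 ^ (K + 1)) (by positivity)
  have hcrit := crit_eq (gT n L) (2 ^ 2 ^ (K + 1)) y hmin
  set E : ℝ := 2 ^ 2 ^ K with hE
  have hE0 : 0 < E := by positivity
  have hE2 : (2 : ℝ) ^ 2 ^ (K + 1) = E ^ 2 := by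
    rw [hE, ← pow_mul]; congr 1
  have hKR : (4 * n : ℝ) ≤ E := by
    rw [hE]
    exact_mod_cast hK
  have hinv : ((1 : ℝ) / 2) ^ 2 ^ K * E = 1 := by
    rw [mul_comm]; exact two_pow_mul_ep _
  have hgE : (gT n L).eval (xt y) ≤ (1 / 2) ^ 2 ^ K := by
    have h1 : E ^ 2 * (gT n L).eval (xt y) ≤ E := by
      rw [hE2] at hval
      push_cast at hval
      linarith
    have h2 : E ^ 2 * ((1 : ℝ) / 2) ^ 2 ^ K = E := by
      calc E ^ 2 * ((1 : ℝ) / 2) ^ 2 ^ K = E * ((1 / 2) ^ 2 ^ K * E) := by ring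
        _ = E := by rw [hinv, mul_one]
    have h3 : E ^ 2 * (gT n L).eval (xt y) ≤ E ^ 2 * ((1 : ℝ) / 2) ^ 2 ^ K := by rw [h2]; exact h1
    exact le_of_mul_le_mul_left h3 (by positivity)
  let x : ℕ → ℝ := fun i => if i < 2 * n then xt y i else if i = 2 * n then
    Real.sqrt ((1 / 2) ^ 2 ^ K - (gT n L).eval (xt y)) else (1 / 2) ^ 2 ^ (i - (2 * n + 1))
  have hx1 : ∀ i < 2 * n, x i = xt y i := fun i hi => by simp only [x]; rw [if_pos hi]
  have hx2 : x (2 * n) = Real.sqrt ((1 / 2) ^ 2 ^ K - (gT n L).eval (xt y)) := by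
    simp only [x]
    rw [if_neg (by omega)]
    simp
  have hx3 : ∀ j, x (ep n j) = (1 / 2) ^ 2 ^ j := fun j => by
    simp only [x, ep]
    rw [if_neg (by omega), if_neg (by omega)]
    congr 2
    omega
  have hgx : tev x (gT n L) = (gT n L).eval (xt y) := by
    rw [← tev_real]
    exact tev_congr hx1 (VLt_gT hL)
  refine ⟨x, ?_⟩
  simp only [← tev_real]
  refine forall_sys.2 ⟨?_, ?_, ?_, ?_⟩
  · intro i hi
    have h1 := hcrit ⟨i, hi⟩
    have h2 : (dT i (gT n L)).eval (xt y) = tev x (GT n L i) := by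
      rw [← tev_real, tev_dT_gT _ _ hi]
      exact (tev_congr hx1 (VLt_GT hL hi)).symm
    have h3 : x i = y ⟨i, hi⟩ := by
      rw [hx1 i hi, xt, dif_pos hi]
    rw [tev_crit, hx3, h3]
    simp only [h2] at h1
    have h4 := two_pow_mul_ep (F := ℝ) (K + 1)
    linear_combination (1 / 2) ^ 2 ^ (K + 1) * h1 - tev x (GT n L i) * h4
  · rw [tev_vq, hx2, hx3, hgx, Real.sq_sqrt (by linarith)]
    ring
  · simp only [e0, tev_sb, tev_mul, tev_n2, tev_var, tev_one, hx3]
    norm_num
  · intro j _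
    rw [tev_ch, hx3, hx3, ← pow_mul, sub_eq_zero]
    congr 1

/-- A small solution of the constraints gives a real solution of the system. -/
theorem real_of_sat {L : List Con} {w : ℕ → ℝ} (hw : ∀ i, |w i| ≤ 1 / 8)
    (h : ∀ c ∈ L, c.HoldsC (1 / 8) w) :
    ∃ x : ℕ → ℝ, ∀ t ∈ sys (svars L).length (gapK L.length + 1) (rL L), t.eval x = 0 := by
  set n := (svars L).length with hn
  let u : ℕ → ℝ := fun v => w ((svars L).getD v 0)
  have hu : ∀ v, u v ^ 2 ≤ 1 / 64 := by
    intro v
    have h1 := hw ((svars L).getD v 0)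
    have h2 : |u v| ^ 2 ≤ (1 / 8) ^ 2 := pow_le_pow_left₀ (abs_nonneg _) h1 2
    rw [sq_abs] at h2
    linarith
  let x₀ : Fin (2 * n) → ℝ := fun i => if (i : ℕ) < n then u i else
    Real.sqrt (1 / 8 - u (i - n) ^ 2)
  have hK : 4 * n ≤ 2 ^ 2 ^ (gapK L.length + 1) := by
    have h1 := length_svars L
    have h2 : 12 * L.length < 2 ^ (12 * L.length) := Nat.lt_two_pow_self
    have h3 : 12 * L.length ≤ 2 ^ (gapK L.length + 1) := by
      have h4 : 11 * L.length < 2 ^ (11 * L.length) := Nat.lt_two_pow_self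
      have h5 : 2 ^ (gapK L.length + 1) = 256 * 2 ^ (11 * L.length) := by
        unfold gapK
        rw [show 11 * L.length + 7 + 1 = 8 + 11 * L.length by ring, pow_add]
        norm_num
      omega
    calc 4 * n ≤ 12 * L.length := by omega
      _ ≤ 2 ^ (12 * L.length) := h2.le
      _ ≤ _ := Nat.pow_le_pow_right (by norm_num) h3
  have hxt1 : ∀ v < n, xt x₀ v = u v := by
    intro v hv
    simp only [xt, x₀]
    rw [dif_pos (by omega), if_pos hv]
  have hxt2 : ∀ v < n, xt x₀ (n + v) = Real.sqrt (1 / 8 - u v ^ 2) := by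
    intro v hv
    simp only [xt, x₀]
    rw [dif_pos (by omega), if_neg (by omega), show n + v - n = v by omega]
  refine real_of_zero vars_rL hK x₀ ?_ ?_
  · intro i
    simp only [x₀]
    rw [← sq_le_one_iff_abs_le_one]
    split_ifs
    · have := hu i
      linarith
    · have h1 := hu (i - n)
      rw [Real.sq_sqrt (by linarith)]
      have := sq_nonneg (u (i - n))
      linarith
  · rw [eval_gT]
    have h1 : ∀ c ∈ rL L, (eT c).eval (xt x₀) ^ 2 = 0 := by
      intro c hc
      obtain ⟨c', hc', rfl⟩ := List.mem_map.1 hc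
      rw [eval_eT_rnm]
      have h2 : Con.err (fun i => xt x₀ (nm L i)) c' = c'.err w := by
        apply err_congr
        intro i hi
        have h3 := mem_svars hc' hi
        have h4 : nm L i < (svars L).length := List.idxOf_lt_length_of_mem h3
        rw [hxt1 _ h4]
        simp only [u]
        rw [List.getD_eq_getElem _ _ h4]
        congr 1
        exact List.getElem_idxOf h4
      rw [h2, Con.err_eq_zero.2 (h c' hc')]
      ring
    have h2 : ∀ v ∈ List.range n, (bx n v).eval (xt x₀) ^ 2 = 0 := by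
      intro v hv
      rw [List.mem_range] at hv
      rw [← tev_real, tev_bx, hxt1 v hv, hxt2 v hv, Real.sq_sqrt (by have := hu v; linarith)]
      ring
    rw [List.map_congr_left h1, List.map_congr_left h2]
    simp

/-- The system of a system of constraints. -/
def target (S : List Con) : List Tm :=
  sys (svars (bsys S)).length (gapK (bsys S).length + 1) (rL (bsys S))

/-- **Correctness of the reduction.** -/
theorem target_correct (S : List Con) :
    Sat S ↔ ∃ x : ℕ → ℝ, ∀ t ∈ target S, t.eval x = 0 := by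
  constructor
  · intro h
    obtain ⟨w, hw, h1⟩ := bsys_of_sat h
    exact real_of_sat hw h1
  · rintro ⟨x, hx⟩
    obtain ⟨w', hw'⟩ := sat_of_real hx
    exact sat_of_bsys hw'

theorem target_regular (S : List Con) : Regular (target S) := regular_sys vars_rL

end Pool.Agent.J6H79.RS
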