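import Pool.Agent.J6H79.RS.Sys

/-!
# The system is regular
-/

set_option autoImplicit false

namespace Pool.Agent.J6H79.RS

open Pool.Agent.NPC Pool.Agent.NPC.ER

theorem finite_of_coords {N : ℕ} {S : Set (ℕ → ℂ)} (h0 : ∀ x ∈ S, ∀ i, N ≤ i → x i = 0)
    (h : ∀ i < N, (Set.range fun x : S => x.1 i).Finite) : S.Finite := by
  let r : (ℕ → ℂ) → (Fin N → ℂ) := fun x i => x i
  have h1 : (Set.pi Set.univ fun i : Fin N => Set.range fun x : S => x.1 (i : ℕ)).Finite :=
    Set.Finite.pi fun i => h i i.2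
  have h2 : (r '' S).Finite := by
    refine h1.subset ?_
    rintro _ ⟨x, hx, rfl⟩ i _
    exact ⟨⟨x, hx⟩, rfl⟩
  refine Set.Finite.of_finite_image h2 ?_
  intro x hx y hy hxy
  funext i
  by_cases hi : i < N
  · exact congrFun hxy ⟨i, hi⟩
  · rw [h0 x hx i (by omega), h0 y hy i (by omega)]

section

variable {n K : ℕ} {L : List Con}

/-- the complex solutions -/
def Sol (n K : ℕ) (L : List Con) : Set (ℕ → ℂ) := {x | ∀ t ∈ sys n K L, tev x t = 0}

theorem sol_ep {x : ℕ → ℂ} (h : x ∈ Sol n K L) {j : ℕ} (hj : j ≤ K + 1) :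
    x (ep n j) = (1 / 2) ^ 2 ^ j := by
  have h1 := forall_sys.1 h
  exact ep_value h1.2.2.1 h1.2.2.2 j hj

/-- the coordinate functions -/
def co (n K : ℕ) (L : List Con) (i : ℕ) : Sol n K L → ℂ := fun x => x.1 i

theorem tev_co (t : Tm) : tev (co n K L) t = fun x => tev x.1 t := by
  funext x
  have h := map_tev (Pi.evalRingHom (fun _ : Sol n K L => ℂ) x) (co n K L) t
  exact h

theorem sol_rel {x : ℕ → ℂ} (h : x ∈ Sol n K L) {i : ℕ} (hi : i < 2 * n) :
    x i ^ 5 = -1 - (2 ^ 2 ^ (K + 1)) * tev x (GT n L i) := by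
  have h1 := (forall_sys.1 h).1 i hi
  rw [tev_crit, sol_ep h le_rfl] at h1
  have h2 := two_pow_mul_ep (F := ℂ) (K + 1)
  linear_combination (2 ^ 2 ^ (K + 1)) * h1 - (x i ^ 5 + 1) * h2

/-- The first coordinates are algebraic integers. -/
theorem co_integral (hL : ∀ c ∈ L, ∀ i ∈ c.vars, i < n) {i : ℕ} (hi : i < 2 * n) :
    IsIntegral ℤ (co n K L i) := by
  have h := isIntegral_coord (m := 2 * n) (X := fun i : Fin (2 * n) => co n K L i) (by
    intro j
    have h1 : co n K L j ^ 5 = -1 - ((2 ^ 2 ^ (K + 1) : ℤ)) • tev (co n K L) (GT n L j) := by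
      funext x
      rw [tev_co]
      have := sol_rel x.2 j.2
      simp only [Pi.pow_apply, Pi.sub_apply, Pi.neg_apply, Pi.one_apply, Pi.smul_apply, co]
      simp only [zsmul_eq_mul]
      rw [this]
      push_cast
      ring
    show co n K L j ^ 5 ∈ _
    rw [h1]
    refine Submodule.sub_mem _ (Submodule.neg_mem _ (one_mem_Dg _)) (Submodule.smul_mem _ _ ?_)
    have h2 := tev_mem_Dg (m := 2 * n) (X := fun i : Fin (2 * n) => co n K L i)
      (x := co n K L) (fun _ => rfl) (VLt_GT hL j.2)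
    exact Dg_mono ((tdeg_GT n L j).trans (by norm_num)) h2) ⟨i, hi⟩
  exact h

theorem sol_integral (hL : ∀ c ∈ L, ∀ i ∈ c.vars, i < n) {x : ℕ → ℂ} (h : x ∈ Sol n K L) {i : ℕ}
    (hi : i < 2 * n) : IsIntegral ℤ (x i) := by
  have h1 := (co_integral (K := K) hL hi).map (Pi.evalAlgHom ℤ (fun _ : Sol n K L => ℂ) ⟨x, h⟩)
  exact h1

/-- The coordinates take finitely many values. -/
theorem finite_co (hL : ∀ c ∈ L, ∀ i ∈ c.vars, i < n) {i : ℕ} (hi : i < 2 * n + K + 3) :
    (Set.range (co n K L i)).Finite := by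
  rcases lt_trichotomy i (2 * n) with h | h | h
  · exact finite_range_of_isIntegral (co_integral hL h)
  · have hg : IsIntegral ℤ (tev (co n K L) (gT n L)) :=
      tev_integral (N := 2 * n) (fun i hi => co_integral hL hi) (VLt_gT hL)
    have h1 : IsIntegral ℤ (fun x : Sol n K L => (2 : ℂ) ^ 2 ^ K * x.1 i) := by
      refine IsIntegral.of_pow (n := 2) (by norm_num) ?_
      have h2 : (fun x : Sol n K L => (2 : ℂ) ^ 2 ^ K * x.1 i) ^ 2 =
          (((2 ^ 2 ^ K : ℤ)) • (1 : Sol n K L → ℂ)) -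
            ((2 ^ 2 ^ (K + 1) : ℤ)) • tev (co n K L) (gT n L) := by
        funext x
        rw [tev_co]
        have h3 := (forall_sys.1 x.2).2.1
        rw [tev_vq, sol_ep x.2 (by omega)] at h3
        have h4 := two_pow_mul_ep (F := ℂ) K
        simp only [Pi.pow_apply, Pi.sub_apply, Pi.one_apply, Pi.smul_apply]
        simp only [zsmul_eq_mul]
        push_cast
        rw [h]
        have h5 : (2 : ℂ) ^ 2 ^ (K + 1) = (2 ^ 2 ^ K) ^ 2 := by
          rw [← pow_mul]; congr 1
        rw [h5]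
        linear_combination (2 ^ 2 ^ K) ^ 2 * h3 + (2 ^ 2 ^ K) * h4
      rw [h2]
      exact (isIntegral_one.smul _).sub (hg.smul _)
    have h2 := finite_range_of_isIntegral h1
    have h3 : co n K L i = (fun z : ℂ => z / 2 ^ 2 ^ K) ∘
        (fun x : Sol n K L => (2 : ℂ) ^ 2 ^ K * x.1 i) := by
      funext x
      simp only [co, Function.comp]
      have : (2 : ℂ) ^ 2 ^ K ≠ 0 := pow_ne_zero _ two_ne_zero
      field_simp
    rw [h3, Set.range_comp]
    exact h2.image _
  · obtain ⟨j, hj⟩ : ∃ j, i = ep n j := ⟨i - (2 * n + 1), by unfold ep; omega⟩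
    have hj2 : j ≤ K + 1 := by unfold ep at hj; omega
    refine (Set.finite_singleton ((1 / 2 : ℂ) ^ 2 ^ j)).subset ?_
    rintro _ ⟨x, rfl⟩
    rw [Set.mem_singleton_iff, co, hj]
    exact sol_ep x.2 hj2

theorem not_two_pow_dvd {a : ℕ} {T : ℤ} (hT : ¬ (2 : ℤ) ∣ T) : ¬ ((2 : ℤ) ^ 2 ^ a ∣ T) :=
  fun h => hT ((dvd_pow_self 2 (by positivity)).trans h)

/-- the coordinate `2 n` does not vanish -/
theorem sol_ne_zero (hL : ∀ c ∈ L, ∀ i ∈ c.vars, i < n) {x : ℕ → ℂ} (h : x ∈ Sol n K L) :
    x (2 * n) ≠ 0 := by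
  intro h0
  have h1 := (forall_sys.1 h).2.1
  rw [tev_vq, sol_ep h (by omega), h0] at h1
  have hg : IsIntegral ℤ (tev x (gT n L)) :=
    tev_integral (N := 2 * n) (fun i hi => sol_integral hL h hi) (VLt_gT hL)
  have h2 := two_pow_mul_ep (F := ℂ) K
  have h3 := dvd_of_isIntegral hg (E := 2 ^ 2 ^ K) (T := 1) (by positivity) (by
    push_cast
    linear_combination (2 ^ 2 ^ K) * h1 + h2)
  exact not_two_pow_dvd (by norm_num) h3

/-- The linearised equations have only the trivial solution. -/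
theorem sol_nondeg (hL : ∀ c ∈ L, ∀ i ∈ c.vars, i < n) {x : ℕ → ℂ} (h : x ∈ Sol n K L)
    {v : ℕ → ℂ} (hv : ∀ t ∈ sys n K L, dif x v t = 0) {i : ℕ} (hi : i < 2 * n + K + 3) :
    v i = 0 := by
  obtain ⟨v1, v2, v3, v4⟩ := forall_sys.1 hv
  -- the small numbers
  have hep : ∀ j ≤ K + 1, v (ep n j) = 0 := by
    intro j
    induction j with
    | zero =>
      intro _
      simp only [e0, dif_sb, dif_mul, dif_n2, tev_n2, dif_var, dif_one, tev_var] at v3
      linear_combination v3 / 2
    | succ j ih =>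
      intro hj
      have h1 := v4 j (by omega)
      simp only [ch, dif_sb, dif_sq, dif_var, tev_var, ih (by omega)] at h1
      linear_combination -h1
  -- the first coordinates
  have hfirst : ∀ i < 2 * n, v i = 0 := by
    by_contra hne
    push Not at hne
    obtain ⟨i₀, hi₀, hne⟩ := hne
    have key := isIntegral_eigen (m := 2 * n)
      (C := fun i j => x i * tev x (dT j (GT n L i)) - if i = j then 5 * tev x (GT n L i) else 0)
      (by
        intro i j
        refine IsIntegral.sub ((sol_integral hL h i.2).mul (tev_integral (N := 2 * n)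
          (fun i hi => sol_integral hL h hi) ((VLt_GT hL i.2).dT j))) ?_
        split_ifs
        · refine IsIntegral.mul ?_ (tev_integral (N := 2 * n)
            (fun i hi => sol_integral hL h hi) (VLt_GT hL i.2))
          exact_mod_cast (isIntegral_algebraMap (R := ℤ) (A := ℂ) (x := 5))
        · exact isIntegral_zero)
      (fun i => v i) (i₀ := ⟨i₀, hi₀⟩) hne (5 * (1 / 2) ^ 2 ^ (K + 1)) (by
        intro i
        have h1 := v1 i i.2
        simp only [crit, dif_add, dif_mul, dif_var, tev_add, tev_mul, tev_var, tev_sq, dif_sq,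
          dif_one, tev_one, hep (K + 1) le_rfl, dif_eq x v (VLt_GT hL i.2), sol_ep h le_rfl] at h1
        have h2 := sol_rel h i.2
        have h3 := two_pow_mul_ep (F := ℂ) (K + 1)
        have h4 : ∑ j : Fin (2 * n), (x i * tev x (dT j (GT n L i)) -
            if i = j then 5 * tev x (GT n L i) else 0) * v j =
            x i * (∑ j ∈ Finset.range (2 * n), tev x (dT j (GT n L i)) * v j) -
              5 * tev x (GT n L i) * v i := by
          rw [Finset.sum_range, Finset.mul_sum]
          simp only [sub_mul, Finset.sum_sub_distrib, ite_mul, zero_mul, Finset.sum_ite_eq,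
            Finset.mem_univ, if_true, mul_assoc]
        rw [h4]
        linear_combination -x i * h1 + 5 * (1 / 2) ^ 2 ^ (K + 1) * v i * h2 -
          5 * tev x (GT n L i) * v i * h3)
    have h5 := two_pow_mul_ep (F := ℂ) (K + 1)
    have h6 := dvd_of_isIntegral key (E := 2 ^ 2 ^ (K + 1)) (T := 5) (by positivity) (by
      push_cast
      linear_combination 5 * h5)
    exact not_two_pow_dvd (by norm_num) h6
  rcases lt_trichotomy i (2 * n) with h1 | h1 | h1
  · exact hfirst i h1
  · have h2 : dif x v (gT n L) = 0 := by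
      rw [dif_eq x v (VLt_gT hL)]
      apply Finset.sum_eq_zero
      intro j hj
      rw [hfirst j (Finset.mem_range.1 hj), mul_zero]
    simp only [vq, dif_sb, dif_add, dif_sq, dif_var, tev_var, h2, hep K (by omega)] at v2
    have h3 := sol_ne_zero hL h
    rw [h1]
    have h4 : 2 * x (2 * n) * v (2 * n) = 0 := by linear_combination v2
    rcases mul_eq_zero.1 h4 with h5 | h5
    · exact absurd ((mul_eq_zero.1 h5).resolve_left (by norm_num)) h3
    · exact h5
  · obtain ⟨j, hj⟩ : ∃ j, i = ep n j := ⟨i - (2 * n + 1), by unfold ep; omega⟩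
    rw [hj]
    exact hep j (by unfold ep at hj; omega)

/-! ### real solutions -/

/-- The real solutions: the sum of squares is small. -/
theorem real_le {x : ℕ → ℝ} (h : ∀ t ∈ sys n K L, t.eval x = 0) :
    (∀ j ≤ K + 1, x (ep n j) = (1 / 2) ^ 2 ^ j) ∧ x (2 * n) ^ 2 + (gT n L).eval x =
      (1 / 2) ^ 2 ^ K := by
  simp only [← tev_real] at h
  obtain ⟨h1, h2, h3, h4⟩ := forall_sys.1 h
  have h5 := ep_value h3 h4
  refine ⟨h5, ?_⟩
  rw [tev_vq, h5 K (by omega), tev_real] at h2
  linarith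

theorem eval_gT (x : ℕ → ℝ) : (gT n L).eval x =
    (L.map fun c => (eT c).eval x ^ 2).sum + ((List.range n).map fun v =>
      (bx n v).eval x ^ 2).sum := by
  simp only [← tev_real, gT, tev_add, tev_sumTm, List.map_map]
  congr 1 <;> (congr 1; apply List.map_congr_left; intro c _; simp)

theorem sq_le_sum {α : Type*} (l : List α) (f : α → ℝ) {a : α} (ha : a ∈ l) :
    f a ^ 2 ≤ (l.map fun c => f c ^ 2).sum := by
  apply List.single_le_sum
  · intro y hy
    obtain ⟨c, _, rfl⟩ := List.mem_map.1 hy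
    positivity
  · exact List.mem_map.2 ⟨a, ha, rfl⟩

theorem sum_sq_nonneg {α : Type*} (l : List α) (f : α → ℝ) : 0 ≤ (l.map fun c => f c ^ 2).sum := by
  apply List.sum_nonneg
  intro y hy
  obtain ⟨c, _, rfl⟩ := List.mem_map.1 hy
  positivity

theorem gT_nonneg (x : ℕ → ℝ) : 0 ≤ (gT n L).eval x := by
  rw [eval_gT]
  exact add_nonneg (sum_sq_nonneg _ _) (sum_sq_nonneg _ _)

/-- the errors at real solutions -/
theorem err_le {x : ℕ → ℝ} (h : ∀ t ∈ sys n K L, t.eval x = 0) {c : Con} (hc : c ∈ L) :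
    (eT c).eval x ^ 2 ≤ (1 / 2) ^ 2 ^ K := by
  have h1 := (real_le h).2
  rw [eval_gT] at h1
  have h2 := sq_le_sum L (fun c => (eT c).eval x) hc
  have h3 := sum_sq_nonneg (List.range n) (fun v => (bx n v).eval x)
  have h4 := sq_nonneg (x (2 * n))
  linarith

theorem half_pow_le (j : ℕ) : ((1 : ℝ) / 2) ^ 2 ^ j ≤ 1 / 2 := by
  calc ((1 : ℝ) / 2) ^ 2 ^ j ≤ (1 / 2) ^ 1 :=
        pow_le_pow_of_le_one (by norm_num) (by norm_num) Nat.one_le_two_pow
    _ = 1 / 2 := pow_one _

theorem coord_le {x : ℕ → ℝ} (h : ∀ t ∈ sys n K L, t.eval x = 0) {v : ℕ} (hv : v < 2 * n) :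
    |x v| ≤ 1 := by
  have key : ∀ v < n, x v ^ 2 + x (n + v) ^ 2 ≤ 1 := by
    intro v hv
    have h1 := (real_le h).2
    rw [eval_gT] at h1
    have h2 := sq_le_sum (List.range n) (fun v => (bx n v).eval x) (List.mem_range.2 hv)
    have h3 := sum_sq_nonneg L (fun c => (eT c).eval x)
    have h4 := sq_nonneg (x (2 * n))
    have h5 : (bx n v).eval x = 8 * (x v ^ 2 + x (n + v) ^ 2) - 1 := by
      rw [← tev_real, tev_bx]
    have h6 := half_pow_le K
    simp only [h5] at h2
    nlinarith
  rw [← sq_le_one_iff_abs_le_one]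
  by_cases hvn : v < n
  · have := key v hvn
    have := sq_nonneg (x (n + v))
    linarith
  · have h1 := key (v - n) (by omega)
    rw [show n + (v - n) = v by omega] at h1
    have := sq_nonneg (x (v - n))
    linarith

/-- **The system is regular.** -/
theorem regular_sys (hL : ∀ c ∈ L, ∀ i ∈ c.vars, i < n) : Regular (sys n K L) where
  square := by
    rw [length_sys]
    refine forall_sys.2 ⟨?_, ?_, ?_, ?_⟩
    · intro i hi
      refine ⟨⟨?_, ⟨VLt_sq.2 (VLt_sq.2 ?_), ?_⟩, trivial⟩, (VLt_GT hL hi).mono (by omega)⟩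
      · show ep n (K + 1) < _
        unfold ep; omega
      · show i < _
        omega
      · show i < _
        omega
    · refine ⟨⟨VLt_sq.2 ?_, (VLt_gT hL).mono (by omega)⟩, ?_⟩
      · show 2 * n < _
        omega
      · show ep n K < _
        unfold ep; omega
    · refine ⟨⟨VLt_n2 _, ?_⟩, trivial⟩
      show ep n 0 < _
      unfold ep; omega
    · intro j hj
      refine ⟨VLt_sq.2 ?_, ?_⟩
      · show ep n j < _
        unfold ep; omega
      · show ep n (j + 1) < _
        unfold ep; omega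
  finite := by
    rw [length_sys]
    refine finite_of_coords (N := 2 * n + K + 3) (fun x hx => hx.1) fun i hi => ?_
    refine (finite_co (K := K) hL hi).subset ?_
    rintro _ ⟨x, rfl⟩
    exact ⟨⟨x.1, x.2.2⟩, rfl⟩
  nondeg := by
    rw [length_sys]
    intro x hx v hv i hi
    exact sol_nondeg hL (x := x) hx hv hi
  cube := by
    rw [length_sys]
    intro x hx i hi
    rcases lt_trichotomy i (2 * n) with h | h | h
    · exact coord_le hx h
    · have h1 := (real_le hx).2
      have h2 := gT_nonneg (n := n) (L := L) x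
      have h3 := half_pow_le K
      rw [h, ← sq_le_one_iff_abs_le_one]
      linarith
    · obtain ⟨j, hj⟩ : ∃ j, i = ep n j := ⟨i - (2 * n + 1), by unfold ep; omega⟩
      rw [hj, (real_le hx).1 j (by unfold ep at hj; omega), abs_of_pos (by positivity)]
      have := half_pow_le j
      linarith
  deg := by
    refine forall_sys.2 ⟨?_, ?_, ?_, ?_⟩
    · intro i _
      have := tdeg_GT n L i
      simp only [crit, tdeg, sq]
      omega
    · have := tdeg_gT n L
      simp only [vq, sb, tdeg, sq]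
      omega
    · simp [e0, sb, tdeg, n2]
    · intro j _
      simp [ch, sb, sq, tdeg]

end

end Pool.Agent.J6H79.RS
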