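import Pool.Agent.J6H79.RS.Tm

/-!
# The regular square system of a system of constraints
-/

set_option autoImplicit false

namespace Pool.Agent.J6H79.RS

open Pool.Agent.NPC Pool.Agent.NPC.ER

/-! ### Regular square systems -/

/-- A list `S` of `N` polynomial expressions in the first `N` variables is a regular square
system if the equations `t = 0`, `t ∈ S`, have finitely many complex solutions, the linearised
equations have only the trivial solution at every complex solution, all real solutions lie in the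
cube `[-1, 1]ᴺ`, and the degrees are at most six. -/
structure Regular (S : List Tm) : Prop where
  square : ∀ t ∈ S, VLt S.length t
  finite : {x : ℕ → ℂ | (∀ i, S.length ≤ i → x i = 0) ∧ ∀ t ∈ S, tev x t = 0}.Finite
  nondeg : ∀ x : ℕ → ℂ, (∀ t ∈ S, tev x t = 0) → ∀ v : ℕ → ℂ, (∀ t ∈ S, dif x v t = 0) →
    ∀ i < S.length, v i = 0
  cube : ∀ x : ℕ → ℝ, (∀ t ∈ S, t.eval x = 0) → ∀ i < S.length, |x i| ≤ 1
  deg : ∀ t ∈ S, tdeg t ≤ 6

/-! ### The polynomials -/

/-- the error of a constraint; `one i` is read as `8 xᵢ = 1` -/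
def eT : Con → Tm
  | .one i => sb (.mul n8 (.var i)) .one
  | .add i j k => sb (.add (.var i) (.var j)) (.var k)
  | .mul i j k => sb (.mul (.var i) (.var j)) (.var k)

/-- Kronecker's symbol -/
def dl (i a : ℕ) : Tm := if a = i then .one else .zero

/-- the partial derivatives of the error -/
def deT (i : ℕ) : Con → Tm
  | .one a => .mul n8 (dl i a)
  | .add a b c => sb (.add (dl i a) (dl i b)) (dl i c)
  | .mul a b c => sb (.add (.mul (dl i a) (.var b)) (.mul (.var a) (dl i b))) (dl i c)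

/-- `8 (x_v ^ 2 + x_(n+v) ^ 2) - 1` -/
def bx (n v : ℕ) : Tm := sb (.mul n8 (.add (sq (.var v)) (sq (.var (n + v))))) .one

/-- the sum of squares -/
def gT (n : ℕ) (L : List Con) : Tm :=
  .add (sumTm (L.map fun c => sq (eT c))) (sumTm ((List.range n).map fun v => sq (bx n v)))

/-- its partial derivatives -/
def GT (n : ℕ) (L : List Con) (i : ℕ) : Tm :=
  .add (.mul n2 (sumTm (L.map fun c => .mul (eT c) (deT i c))))
    (.mul n32 (.mul (bx n (if i < n then i else i - n)) (.var i)))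

theorem tev_dl {R : Type*} [CommRing R] (x : ℕ → R) (i a : ℕ) :
    tev x (dl i a) = if a = i then 1 else 0 := by
  unfold dl; split_ifs <;> rfl

theorem tev_dT_var {R : Type*} [CommRing R] (x : ℕ → R) (i a : ℕ) :
    tev x (dT i (.var a)) = if a = i then 1 else 0 := by
  unfold dT; split_ifs <;> rfl

section

variable {R : Type*} [CommRing R] (x : ℕ → R)

theorem tev_dT_sb (i : ℕ) (s t : Tm) : tev x (dT i (sb s t)) = tev x (dT i s) - tev x (dT i t) := by
  simp [sb, dT, sub_eq_add_neg]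

theorem tev_dT_add (i : ℕ) (s t : Tm) : tev x (dT i (.add s t)) = tev x (dT i s) + tev x (dT i t) :=
  rfl

theorem tev_dT_mul (i : ℕ) (s t : Tm) : tev x (dT i (.mul s t)) =
    tev x (dT i s) * tev x t + tev x s * tev x (dT i t) := rfl

theorem tev_dT_sq (i : ℕ) (t : Tm) : tev x (dT i (sq t)) = 2 * tev x t * tev x (dT i t) := by
  simp only [sq, tev_dT_mul]; ring

theorem tev_dT_one (i : ℕ) : tev x (dT i .one) = 0 := rfl

theorem tev_dT_n8 (i : ℕ) : tev x (dT i n8) = 0 := by
  simp [n8, n2, dT]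

theorem tev_dT_eT (i : ℕ) (c : Con) : tev x (dT i (eT c)) = tev x (deT i c) := by
  cases c with
  | one a => simp only [eT, deT, tev_dT_sb, tev_dT_mul, tev_dT_n8, tev_dT_var, tev_dT_one, tev_mul,
      tev_dl, tev_n8]; ring
  | add a b c => simp only [eT, deT, tev_dT_sb, tev_dT_add, tev_dT_var, tev_sb, tev_add, tev_dl]
  | mul a b c => simp only [eT, deT, tev_dT_sb, tev_dT_mul, tev_dT_var, tev_sb, tev_add, tev_mul,
      tev_dl, tev_var]

theorem tev_bx (n v : ℕ) : tev x (bx n v) = 8 * (x v ^ 2 + x (n + v) ^ 2) - 1 := by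
  simp [bx]

theorem tev_dT_bx (n v i : ℕ) : tev x (dT i (bx n v)) =
    16 * (x v * (if v = i then 1 else 0) + x (n + v) * (if n + v = i then 1 else 0)) := by
  simp only [bx, tev_dT_sb, tev_dT_mul, tev_dT_add, tev_dT_sq, tev_dT_var, tev_dT_n8, tev_dT_one,
    tev_n8, tev_var]
  ring

/-- The partial derivatives of the sum of squares. -/
theorem tev_dT_gT {n i : ℕ} (L : List Con) (hi : i < 2 * n) :
    tev x (dT i (gT n L)) = tev x (GT n L i) := by
  have h1 : (((L.map fun c => sq (eT c)).map (dT i)).map (tev x)).sum =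
      2 * ((L.map fun c => Tm.mul (eT c) (deT i c)).map (tev x)).sum := by
    rw [List.map_map, List.map_map, List.map_map, ← List.sum_map_mul_left]
    congr 1
    apply List.map_congr_left
    intro c _
    simp only [Function.comp, tev_dT_sq, tev_dT_eT, tev_mul]
    ring
  have h2 : ((((List.range n).map fun v => sq (bx n v)).map (dT i)).map (tev x)).sum =
      32 * (tev x (bx n (if i < n then i else i - n)) * x i) := by
    rw [List.map_map, List.map_map]
    have h3 : ((List.range n).map ((tev x ∘ dT i) ∘ fun v => sq (bx n v))).sum =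
        ∑ v ∈ Finset.range n, tev x (dT i (sq (bx n v))) := by
      rw [Finset.sum_range]
      rw [← List.sum_ofFn]
      congr 1
      apply List.ext_getElem <;> simp
    rw [h3]
    by_cases hin : i < n
    · rw [if_pos hin, Finset.sum_eq_single i]
      · rw [tev_dT_sq, tev_dT_bx, if_pos rfl, if_neg (by omega)]
        ring
      · intro v _ hv
        rw [tev_dT_sq, tev_dT_bx, if_neg hv, if_neg (by omega)]
        ring
      · intro h
        exact absurd (Finset.mem_range.2 hin) h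
    · rw [if_neg hin, Finset.sum_eq_single (i - n)]
      · rw [tev_dT_sq, tev_dT_bx, if_neg (by omega), if_pos (by omega),
          show n + (i - n) = i by omega]
        ring
      · intro v hv hv'
        rw [Finset.mem_range] at hv
        rw [tev_dT_sq, tev_dT_bx, if_neg (by omega), if_neg (by omega)]
        ring
      · intro h
        exact absurd (Finset.mem_range.2 (by omega)) h
  unfold gT GT
  rw [tev_dT_add, dT_sumTm, dT_sumTm, tev_sumTm, tev_sumTm, h1, h2]
  simp only [tev_add, tev_mul, tev_n2, tev_n32, tev_sumTm, tev_var]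

end

/-! ### Variables and degrees -/

theorem VLt_sb {N : ℕ} {s t : Tm} : VLt N (sb s t) ↔ VLt N s ∧ VLt N t := Iff.rfl
theorem VLt_sq {N : ℕ} {t : Tm} : VLt N (sq t) ↔ VLt N t := ⟨fun h => h.1, fun h => ⟨h, h⟩⟩
theorem VLt_var {N i : ℕ} : VLt N (.var i) ↔ i < N := Iff.rfl
theorem VLt_add {N : ℕ} {s t : Tm} : VLt N (.add s t) ↔ VLt N s ∧ VLt N t := Iff.rfl
theorem VLt_mul {N : ℕ} {s t : Tm} : VLt N (.mul s t) ↔ VLt N s ∧ VLt N t := Iff.rfl
theorem VLt_n2 (N : ℕ) : VLt N n2 := ⟨trivial, trivial⟩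
theorem VLt_n8 (N : ℕ) : VLt N n8 := ⟨VLt_n2 N, VLt_n2 N, VLt_n2 N⟩
theorem VLt_n32 (N : ℕ) : VLt N n32 := ⟨VLt_n8 N, VLt_n2 N, VLt_n2 N⟩

theorem VLt_dl (N i a : ℕ) : VLt N (dl i a) := by unfold dl; split_ifs <;> trivial

theorem VLt_eT {N : ℕ} {c : Con} (h : ∀ i ∈ c.vars, i < N) : VLt N (eT c) := by
  cases c with
  | one a => exact ⟨⟨VLt_n8 N, h a (by simp [Con.vars])⟩, trivial⟩
  | add a b c => exact ⟨⟨h a (by simp [Con.vars]), h b (by simp [Con.vars])⟩,
      h c (by simp [Con.vars])⟩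
  | mul a b c => exact ⟨⟨h a (by simp [Con.vars]), h b (by simp [Con.vars])⟩,
      h c (by simp [Con.vars])⟩

theorem VLt_deT {N : ℕ} (i : ℕ) {c : Con} (h : ∀ i ∈ c.vars, i < N) : VLt N (deT i c) := by
  cases c with
  | one a => exact ⟨VLt_n8 N, VLt_dl _ _ _⟩
  | add a b c => exact ⟨⟨VLt_dl _ _ _, VLt_dl _ _ _⟩, VLt_dl _ _ _⟩
  | mul a b c => exact ⟨⟨⟨VLt_dl _ _ _, h b (by simp [Con.vars])⟩, h a (by simp [Con.vars]),
      VLt_dl _ _ _⟩, VLt_dl _ _ _⟩

theorem VLt_bx {n v : ℕ} (hv : v < n) : VLt (2 * n) (bx n v) :=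
  ⟨⟨VLt_n8 _, ⟨show v < 2 * n by omega, show v < 2 * n by omega⟩,
    show n + v < 2 * n by omega, show n + v < 2 * n by omega⟩, trivial⟩

theorem VLt_gT {n : ℕ} {L : List Con} (hL : ∀ c ∈ L, ∀ i ∈ c.vars, i < n) :
    VLt (2 * n) (gT n L) := by
  refine ⟨VLt_sumTm.2 ?_, VLt_sumTm.2 ?_⟩
  · intro t ht
    obtain ⟨c, hc, rfl⟩ := List.mem_map.1 ht
    exact VLt_sq.2 (VLt_eT fun i hi => by have := hL c hc i hi; omega)
  · intro t ht
    obtain ⟨v, hv, rfl⟩ := List.mem_map.1 ht
    exact VLt_sq.2 (VLt_bx (List.mem_range.1 hv))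

theorem VLt_GT {n i : ℕ} {L : List Con} (hL : ∀ c ∈ L, ∀ i ∈ c.vars, i < n) (hi : i < 2 * n) :
    VLt (2 * n) (GT n L i) := by
  refine ⟨⟨VLt_n2 _, VLt_sumTm.2 ?_⟩, VLt_n32 _, VLt_bx ?_, hi⟩
  · intro t ht
    obtain ⟨c, hc, rfl⟩ := List.mem_map.1 ht
    exact ⟨VLt_eT fun i hi => by have := hL c hc i hi; omega,
      VLt_deT i fun i hi => by have := hL c hc i hi; omega⟩
  · split_ifs <;> omega

theorem tdeg_dl (i a : ℕ) : tdeg (dl i a) = 0 := by unfold dl; split_ifs <;> rfl

theorem tdeg_eT (c : Con) : tdeg (eT c) ≤ 2 := by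
  cases c <;> simp [eT, sb, tdeg, n8, n2]

theorem tdeg_deT (i : ℕ) (c : Con) : tdeg (deT i c) ≤ 1 := by
  cases c <;> simp [deT, sb, tdeg, n8, n2, tdeg_dl]

theorem tdeg_bx (n v : ℕ) : tdeg (bx n v) ≤ 2 := by simp [bx, sb, sq, tdeg, n8, n2]

theorem tdeg_gT (n : ℕ) (L : List Con) : tdeg (gT n L) ≤ 4 := by
  unfold gT
  refine max_le (tdeg_sumTm.2 ?_) (tdeg_sumTm.2 ?_)
  · intro t ht
    obtain ⟨c, _, rfl⟩ := List.mem_map.1 ht
    show tdeg (eT c) + tdeg (eT c) ≤ 4
    have := tdeg_eT c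
    omega
  · intro t ht
    obtain ⟨v, _, rfl⟩ := List.mem_map.1 ht
    show tdeg (bx n v) + tdeg (bx n v) ≤ 4
    have := tdeg_bx n v
    omega

theorem tdeg_GT (n : ℕ) (L : List Con) (i : ℕ) : tdeg (GT n L i) ≤ 3 := by
  unfold GT
  refine max_le ?_ ?_
  · have h : tdeg (sumTm (L.map fun c => Tm.mul (eT c) (deT i c))) ≤ 3 := by
      refine tdeg_sumTm.2 ?_
      intro t ht
      obtain ⟨c, _, rfl⟩ := List.mem_map.1 ht
      show tdeg (eT c) + tdeg (deT i c) ≤ 3
      have h1 := tdeg_eT c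
      have h2 := tdeg_deT i c
      omega
    simp only [tdeg, n2]
    omega
  · have := tdeg_bx n (if i < n then i else i - n)
    simp only [tdeg, n32, n8, n2]
    omega

/-! ### The system -/

/-- the name of `2 ^ (- 2 ^ j)` -/
def ep (n j : ℕ) : ℕ := 2 * n + 1 + j

/-- the equations for the critical points -/
def crit (n K : ℕ) (L : List Con) (i : ℕ) : Tm :=
  .add (.mul (.var (ep n (K + 1))) (.add (.mul (sq (sq (.var i))) (.var i)) .one)) (GT n L i)

/-- the equation for the value -/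
def vq (n K : ℕ) (L : List Con) : Tm := sb (.add (sq (.var (2 * n))) (gT n L)) (.var (ep n K))

/-- the first small number -/
def e0 (n : ℕ) : Tm := sb (.mul n2 (.var (ep n 0))) .one

/-- the next small number -/
def ch (n j : ℕ) : Tm := sb (sq (.var (ep n j))) (.var (ep n (j + 1)))

/-- the system -/
def sys (n K : ℕ) (L : List Con) : List Tm :=
  (List.range (2 * n)).map (crit n K L) ++ (vq n K L :: e0 n :: (List.range (K + 1)).map (ch n))

theorem length_sys (n K : ℕ) (L : List Con) : (sys n K L).length = 2 * n + K + 3 := by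
  simp only [sys, List.length_append, List.length_map, List.length_range, List.length_cons]
  omega

theorem forall_sys {n K : ℕ} {L : List Con} {P : Tm → Prop} : (∀ t ∈ sys n K L, P t) ↔
    (∀ i < 2 * n, P (crit n K L i)) ∧ P (vq n K L) ∧ P (e0 n) ∧ ∀ j < K + 1, P (ch n j) := by
  simp only [sys, List.mem_append, List.mem_map, List.mem_range, List.mem_cons]
  constructor
  · intro h
    exact ⟨fun i hi => h _ (.inl ⟨i, hi, rfl⟩), h _ (.inr (.inl rfl)), h _ (.inr (.inr (.inl rfl))),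
      fun j hj => h _ (.inr (.inr (.inr ⟨j, hj, rfl⟩)))⟩
  · rintro ⟨h1, h2, h3, h4⟩ t (⟨i, hi, rfl⟩ | rfl | rfl | ⟨j, hj, rfl⟩)
    · exact h1 i hi
    · exact h2
    · exact h3
    · exact h4 j hj

section values

variable {F : Type*} [Field F] {n K : ℕ} {L : List Con} {x : ℕ → F}

theorem tev_crit (i : ℕ) : tev x (crit n K L i) =
    x (ep n (K + 1)) * (x i ^ 5 + 1) + tev x (GT n L i) := by
  simp only [crit, tev_add, tev_mul, tev_var, tev_sq, tev_one]
  ring

theorem tev_vq : tev x (vq n K L) = x (2 * n) ^ 2 + tev x (gT n L) - x (ep n K) := by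
  simp [vq]

theorem tev_ch (j : ℕ) : tev x (ch n j) = x (ep n j) ^ 2 - x (ep n (j + 1)) := by
  simp [ch]

/-- the values of the small numbers -/
theorem ep_value [CharZero F] (h0 : tev x (e0 n) = 0) (h : ∀ j < K + 1, tev x (ch n j) = 0) :
    ∀ j ≤ K + 1, x (ep n j) = (1 / 2) ^ 2 ^ j := by
  intro j
  induction j with
  | zero =>
    intro _
    simp only [e0, tev_sb, tev_mul, tev_n2, tev_var, tev_one] at h0
    rw [pow_zero, pow_one]
    field_simp
    linear_combination h0
  | succ j ih =>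
    intro hj
    have h1 := h j (by omega)
    rw [tev_ch] at h1
    have h2 : x (ep n (j + 1)) = x (ep n j) ^ 2 := by linear_combination -h1
    rw [h2, ih (by omega), ← pow_mul]
    congr 1

theorem two_pow_mul_ep [CharZero F] (j : ℕ) : (2 : F) ^ 2 ^ j * (1 / 2) ^ 2 ^ j = 1 := by
  rw [← mul_pow]
  norm_num

end values

end Pool.Agent.J6H79.RS
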